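import Mathlib
import Pool.Agent.Helper11.Defs

/-! Definitions for the statement: a group of functions on the curve `w + ε/w = f(x)` and the
integral part of the span of their symbols. -/

namespace HYI

open Polynomial Pool.Agent.Helper11

/-- `w` is not a root of unity at the zeros of `p(x)` on the curve `w² - f(x) w + ε = 0`: if
`p(a) = 0` and `b² - f(a) b + ε = 0`, then `b` is not a root of unity. -/
def Avoids (f : ℤ[X]) (ε : ℤ) (p : ℚ[X]) : Prop :=
  ∀ a b : ℂ, aeval a p = 0 → b ^ 2 - aeval a f * b + ε = 0 → ∀ m : ℕ, m ≠ 0 → b ^ m ≠ 1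

/-- The subgroup of `Kˣ` generated by `w`, by the `P i (x)` and by all the `p(x) ≠ 0`, `p ∈ ℚ[X]`,
for which `w` is not a root of unity at the zeros of `p(x)`. -/
def funGroup {r : ℕ} (P : Fin (r + 1) → ℤ[X]) (f : ℤ[X]) (ε : ℤ) {K : Type} [Field K] [CharZero K]
    (x w : K) : Subgroup Kˣ :=
  Subgroup.closure ({u | (u : K) = w} ∪ {u | ∃ i, (u : K) = aeval x (P i)} ∪
    {u | ∃ p : ℚ[X], Avoids f ε p ∧ (u : K) = aeval x p})

/-- The integral elements of the span of the symbols of elements of `H`. -/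
noncomputable def intSym {K : Type} [Field K] (H : Subgroup Kˣ) : Submodule ℚ (K2Q K) :=
  Submodule.span ℚ {z | ∃ u ∈ H, ∃ v ∈ H, z = sym u v} ⊓ integralPart K

end HYI
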