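import Mathlib
import Pool.Agent.HYI.Defs
import Pool.Agent.Helper11.K2
import Pool.Agent.Helper11.KApi
import Pool.Agent.Helper11.CGen
import Pool.Agent.Helper11.CDefs

/-! MODULE HYI-Bri (comparison of the two presentations of `K₂ ⊗ ℚ`). The map to Milnor
K-theory comes from the universal property of `K2Q K`, its left inverse from the universal
property of `KMQ K 2`; symbols of units go to symbols of units, so that the integral part goes to
the integral part. -/

namespace HYI

open Pool.Agent.Helper11

open TensorProduct in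
private lemma bri_ext {K : Type} [Field K] {V : Type*} [AddCommGroup V] [Module ℚ V]
    (f g : K2Q K →ₗ[ℚ] V) (h : ∀ u v : Kˣ, f (sym u v) = g (sym u v)) : f = g := by
  apply Submodule.linearMap_qext
  apply LinearMap.ext
  intro x
  induction x using TensorProduct.induction_on with
  | zero => rw [map_zero, map_zero]
  | add a b ha hb => rw [map_add, map_add, ha, hb]
  | tmul q t =>
    induction t using TensorProduct.induction_on with
    | zero => rw [TensorProduct.tmul_zero, map_zero, map_zero]
    | add a b ha hb => rw [TensorProduct.tmul_add, map_add, map_add, ha, hb]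
    | tmul a b =>
      have hq : (q ⊗ₜ[ℤ] (a ⊗ₜ[ℤ] b) : ℚ ⊗[ℤ] (Additive Kˣ ⊗[ℤ] Additive Kˣ)) =
          q • ((1 : ℚ) ⊗ₜ[ℤ] (a ⊗ₜ[ℤ] b)) := by
        rw [TensorProduct.smul_tmul', smul_eq_mul, mul_one]
      rw [hq, map_smul, map_smul]
      congr 1
      exact h a.toMul b.toMul

theorem exists_bri (K : Type) [Field K] :
    ∃ (F : K2Q K →ₗ[ℚ] KMQ K 2) (G : KMQ K 2 →ₗ[ℚ] K2Q K), (∀ u v : Kˣ, F (sym u v) = sy u v) ∧
      (∀ u v : Kˣ, G (sy u v) = sym u v) ∧ (∀ z, G (F z) = z) ∧
      ∀ z ∈ integralPart K, F z ∈ integralM K 2 := by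
  obtain ⟨F, hF⟩ := exists_lift (F := K) (V := KMQ K 2) (fun u v => sy u v)
    (fun u₁ u₂ v => sy_mul_left u₁ u₂ v) (fun u v₁ v₂ => sy_mul_right u v₁ v₂)
    (fun u v h => sy_steinberg h)
  obtain ⟨G, hG⟩ := KMQ.exists_lift (R := K) (d := 2) (V := K2Q K)
    (fun f => sym (f 0) (f 1))
    (by
      intro f i u v
      fin_cases i
      · simp [sym_mul_left]
      · simp [sym_mul_right])
    (by
      intro f i j hij h
      fin_cases i <;> fin_cases j
      · exact absurd rfl hij
      · exact sym_steinberg _ _ h
      · rw [add_comm] at h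
        exact sym_steinberg _ _ h
      · exact absurd rfl hij)
  have hG' : ∀ u v : Kˣ, G (sy u v) = sym u v := by
    intro u v
    have := hG ![u, v]
    simpa [sy] using this
  refine ⟨F, G, hF, hG', ?_, ?_⟩
  · intro z
    have : G ∘ₗ F = LinearMap.id := by
      apply bri_ext
      intro u v
      rw [LinearMap.comp_apply, hF, hG', LinearMap.id_apply]
    exact LinearMap.congr_fun this z
  · intro z hz
    unfold integralM
    rw [Submodule.mem_iInf]
    intro O
    rw [Submodule.mem_iInf]
    intro hO
    unfold integralPart at hz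
    rw [Submodule.mem_iInf] at hz
    have hz1 := hz O
    rw [Submodule.mem_iInf] at hz1
    have hz2 := hz1 hO
    have hle : Submodule.span ℚ {z : K2Q K | ∃ u v : Kˣ, u ∈ O.unitGroup ∧ v ∈ O.unitGroup ∧
        z = sym u v} ≤ (unrM O 2).comap F := by
      rw [Submodule.span_le]
      rintro _ ⟨u, v, hu, hv, rfl⟩
      rw [SetLike.mem_coe, Submodule.mem_comap, hF]
      refine Submodule.subset_span ⟨![u, v], ?_, rfl⟩
      intro i
      fin_cases i
      · exact hu
      · exact hv
    exact hle hz2

end HYI
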