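import Mathlib
import Pool.Agent.HYI.Defs
import Pool.Agent.ISI.Base

/-! Common definitions for the project HYI (MP_a09a03_nt, HyperellipticIso). -/

namespace HYI

open Polynomial Pool.Agent.Helper11 Pool.Agent.ISI

/-- `f = c ∏ (P i)^(e i) + κ` -/
noncomputable def fp {r : ℕ} (P : Fin (r + 1) → ℤ[X]) (e : Fin (r + 1) → ℕ) (c κ : ℤ) : ℤ[X] :=
  C c * ∏ i, P i ^ e i + C κ

/-- the hypotheses; `v` is the unit `w` -/
structure Cur {r : ℕ} (P : Fin (r + 1) → ℤ[X]) (e : Fin (r + 1) → ℕ) (c κ ε : ℤ) {K : Type}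
    [Field K] [CharZero K] (x : K) (v : Kˣ) : Prop where
  hm : ∀ i, (P i).Monic
  hi : ∀ i, Irreducible (P i)
  hd : Function.Injective P
  he : ∀ i, e i ≠ 0
  hc : c ≠ 0
  hκ : (ε = 1 ∧ |κ| ≤ 2) ∨ (ε = -1 ∧ κ = 0)
  hx : Transcendental ℚ x
  hK : IntermediateField.adjoin ℚ {x, (v : K)} = ⊤
  h : (v : K) ^ 2 - aeval x (fp P e c κ) * v + ε = 0

/-- the group generated by the values at `x` of the polynomials `P i` and of the polynomials which
avoid the points where `w` is a root of unity -/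
def xGroup {r : ℕ} (P : Fin (r + 1) → ℤ[X]) (f : ℤ[X]) (ε : ℤ) {K : Type} [Field K] [CharZero K]
    (x : K) : Subgroup Kˣ :=
  Subgroup.closure ({u | ∃ i, (u : K) = aeval x (P i)} ∪
    {u | ∃ p : ℚ[X], Avoids f ε p ∧ (u : K) = aeval x p})

section

variable {r : ℕ} {P : Fin (r + 1) → ℤ[X]} {e : Fin (r + 1) → ℕ} {c κ ε : ℤ} {K : Type}
  [Field K] [CharZero K] {x : K} {v : Kˣ}

namespace Cur

lemma hε (H : Cur P e c κ ε x v) : ε = 1 ∨ ε = -1 := by
  rcases H.hκ with h | h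
  · exact Or.inl h.1
  · exact Or.inr h.1

lemma deg_pos (H : Cur P e c κ ε x v) (i : Fin (r + 1)) : 0 < (P i).natDegree := by
  have h1 := H.hm i
  have h2 := H.hi i
  by_contra h0
  have h3 : (P i).natDegree = 0 := by omega
  have h4 := h1.natDegree_eq_zero.1 h3
  rw [h4] at h2
  exact not_irreducible_one h2

end Cur

end

end HYI
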