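import Mathlib

/-! HYI-Invol: the involution of `K = ℚ(x, w)`, `w² - A(x) w + ε = 0` (Mathlib only).

`not_mem`: `w` is not in `ℚ(x)` (write `w` as a reduced fraction of polynomials in `x`).
`exists_invol`: the automorphism fixing `x` and sending `w` to `ε / w`. -/

namespace HYI

open Polynomial

private theorem Invol_rep {K : Type} [Field K] [CharZero K] {x w : K} (hx : Transcendental ℚ x)
    (hw : w ∈ IntermediateField.adjoin ℚ {x}) :
    ∃ a b : ℚ[X], IsRelPrime a b ∧ b ≠ 0 ∧ w * aeval x b = aeval x a := by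
  obtain ⟨r, s, hrs⟩ := (IntermediateField.mem_adjoin_simple_iff ℚ w).1 hw
  have hinj : Function.Injective (aeval x : ℚ[X] →ₐ[ℚ] K) :=
    transcendental_iff_injective.1 hx
  by_cases hs : s = 0
  · refine ⟨0, 1, isRelPrime_one_right, one_ne_zero, ?_⟩
    rw [hrs, hs]
    simp
  · have hs' : aeval x s ≠ 0 := fun h => hs (hinj (by rw [h, map_zero]))
    obtain ⟨a, b, hab, hmk⟩ := IsFractionRing.exists_reduced_fraction (A := ℚ[X])
      (K := FractionRing ℚ[X])
      (algebraMap ℚ[X] (FractionRing ℚ[X]) r / algebraMap ℚ[X] (FractionRing ℚ[X]) s)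
    have hb : (b : ℚ[X]) ≠ 0 := nonZeroDivisors.ne_zero b.2
    have hsm : algebraMap ℚ[X] (FractionRing ℚ[X]) s ≠ 0 := by
      intro h
      exact hs ((IsFractionRing.injective ℚ[X] (FractionRing ℚ[X])) (by rw [h, map_zero]))
    have hbm : algebraMap ℚ[X] (FractionRing ℚ[X]) (b : ℚ[X]) ≠ 0 := by
      intro h
      exact hb ((IsFractionRing.injective ℚ[X] (FractionRing ℚ[X])) (by rw [h, map_zero]))
    have hcross : a * s = r * (b : ℚ[X]) := by
      apply IsFractionRing.injective ℚ[X] (FractionRing ℚ[X])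
      rw [map_mul, map_mul]
      rw [IsFractionRing.mk'_eq_div] at hmk
      rw [div_eq_div_iff hbm hsm] at hmk
      exact hmk
    refine ⟨a, b, hab, hb, ?_⟩
    have h2 := congrArg (aeval x) hcross
    rw [map_mul, map_mul] at h2
    rw [hrs, div_mul_eq_mul_div, div_eq_iff hs', h2]

theorem not_mem {K : Type} [Field K] [CharZero K] {x w : K} (hx : Transcendental ℚ x) {A : ℚ[X]}
    (hA : 0 < A.natDegree) {ε : ℤ} (hε : ε = 1 ∨ ε = -1)
    (h : w ^ 2 - aeval x A * w + ε = 0) : w ∉ IntermediateField.adjoin ℚ {x} := by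
  intro hw
  obtain ⟨a, b, hab, hb, hwab⟩ := Invol_rep hx hw
  have hinj : Function.Injective (aeval x : ℚ[X] →ₐ[ℚ] K) :=
    transcendental_iff_injective.1 hx
  have hε2 : ε * ε = 1 := by rcases hε with h1 | h1 <;> rw [h1] <;> norm_num
  have hpoly : a ^ 2 - A * a * b + (ε : ℚ[X]) * b ^ 2 = 0 := by
    apply hinj
    rw [map_zero, map_add, map_sub, map_mul, map_mul, map_mul, map_pow, map_pow, map_intCast,
      ← hwab]
    have h2 : (w * aeval x b) ^ 2 - aeval x A * (w * aeval x b) * aeval x b
        + (ε : K) * (aeval x b) ^ 2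
        = (w ^ 2 - aeval x A * w + ε) * (aeval x b) ^ 2 := by ring
    rw [h2, h, zero_mul]
  have hbdvd : b ∣ a ^ 2 := ⟨A * a - (ε : ℚ[X]) * b, by linear_combination hpoly⟩
  have hadvd : a ∣ b ^ 2 := by
    refine ⟨(ε : ℚ[X]) * (A * b - a), ?_⟩
    have h3 : (ε : ℚ[X]) * (ε : ℚ[X]) = 1 := by exact_mod_cast congrArg (Int.cast : ℤ → ℚ[X]) hε2
    linear_combination (ε : ℚ[X]) * hpoly - b ^ 2 * h3
  have hbu : IsUnit b := by
    have h4 : IsRelPrime (a ^ 2) b := IsRelPrime.pow_left hab
    exact h4 hbdvd dvd_rfl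
  have hau : IsUnit a := by
    have h4 : IsRelPrime a (b ^ 2) := IsRelPrime.pow_right hab
    exact h4 dvd_rfl hadvd
  have ha0 : a ≠ 0 := hau.ne_zero
  have hA0 : A ≠ 0 := by
    intro h0
    rw [h0, natDegree_zero] at hA
    exact lt_irrefl _ hA
  have hda : a.natDegree = 0 := natDegree_eq_zero_of_isUnit hau
  have hdb : b.natDegree = 0 := natDegree_eq_zero_of_isUnit hbu
  have h5 : A * a * b = a ^ 2 + (ε : ℚ[X]) * b ^ 2 := by linear_combination -hpoly
  have h6 : (A * a * b).natDegree = A.natDegree := by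
    rw [natDegree_mul (mul_ne_zero hA0 ha0) hb, natDegree_mul hA0 ha0, hda, hdb]
    simp
  have h7 : (a ^ 2 + (ε : ℚ[X]) * b ^ 2).natDegree ≤ 0 := by
    refine (natDegree_add_le _ _).trans (max_le ?_ ?_)
    · refine natDegree_pow_le.trans ?_
      rw [hda]
    · refine natDegree_mul_le.trans ?_
      have h8 : ((ε : ℤ) : ℚ[X]).natDegree = 0 := natDegree_intCast ε
      have h9 : (b ^ 2).natDegree ≤ 0 := by
        refine natDegree_pow_le.trans ?_
        rw [hdb]
      omega
  rw [← h5, h6] at h7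
  omega

theorem exists_invol {K : Type} [Field K] [CharZero K] {x w : K} (hx : Transcendental ℚ x)
    (hK : IntermediateField.adjoin ℚ {x, w} = ⊤) {A : ℚ[X]} (hA : 0 < A.natDegree) {ε : ℤ}
    (hε : ε = 1 ∨ ε = -1) (h : w ^ 2 - aeval x A * w + ε = 0) :
    ∃ σ : K ≃+* K, σ x = x ∧ σ w = ε / w := by
  classical
  have hnot := not_mem hx hA hε h
  have hε0 : (ε : K) ≠ 0 := by
    rcases hε with h1 | h1 <;> rw [h1] <;> norm_num
  have hw0 : w ≠ 0 := by
    intro h0
    rw [h0] at h
    apply hε0
    linear_combination h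
  have hw'eq : ((ε : K) / w) ^ 2 - aeval x A * ((ε : K) / w) + ε = 0 := by
    field_simp
    linear_combination (ε : K) * h
  set F := IntermediateField.adjoin ℚ {x} with hF
  have hxF : x ∈ F := IntermediateField.mem_adjoin_simple_self ℚ x
  have hAF : aeval x A ∈ F := by
    rw [← Subtype.coe_mk (p := fun y => y ∈ F) x hxF]
    have := (aeval (⟨x, hxF⟩ : F) A).2
    have h2 : ((aeval (⟨x, hxF⟩ : F) A : F) : K) = aeval x A := by
      have := Polynomial.aeval_algHom_apply (F.val) (⟨x, hxF⟩ : F) A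
      exact this.symm
    rwa [h2] at this
  have hw'not : (ε : K) / w ∉ F := by
    intro hmem
    apply hnot
    have h2 : w = (ε : K) / ((ε : K) / w) := by
      field_simp
    rw [h2]
    exact F.div_mem (intCast_mem F ε) hmem
  -- the quadratic over `F`
  let g : F[X] := X ^ 2 - C (⟨aeval x A, hAF⟩ : F) * X + C ((ε : ℤ) : F)
  have hgdeg : g.natDegree = 2 := by
    show (X ^ 2 - C (⟨aeval x A, hAF⟩ : F) * X + C ((ε : ℤ) : F)).natDegree = 2
    compute_degree!
  have hgm : g.Monic := by
    show (X ^ 2 - C (⟨aeval x A, hAF⟩ : F) * X + C ((ε : ℤ) : F)).Monic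
    monicity!
  have haevalg : ∀ y : K, aeval y g = y ^ 2 - aeval x A * y + ε := by
    intro y
    show aeval y (X ^ 2 - C (⟨aeval x A, hAF⟩ : F) * X + C ((ε : ℤ) : F)) = _
    simp only [map_add, map_sub, map_mul, map_pow, aeval_X, aeval_C]
    rw [map_intCast]
    rfl
  have hgirr : Irreducible g := by
    rw [hgm.irreducible_iff_roots_eq_zero_of_degree_le_three (by omega) (by omega)]
    rw [Multiset.eq_zero_iff_forall_notMem]
    intro y hy
    have hroot : IsRoot g y := isRoot_of_mem_roots hy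
    have h1 : aeval (y : K) g = 0 := by
      have h2 : aeval ((algebraMap F K) y) g = algebraMap F K (aeval y g) :=
        Polynomial.aeval_algebraMap_apply K y g
      have h3 : aeval y g = 0 := by
        rw [coe_aeval_eq_eval]
        exact hroot
      rw [h3, map_zero] at h2
      exact h2
    rw [haevalg] at h1
    have h4 : ((y : K) - w) * ((y : K) - (ε : K) / w) = 0 := by
      have h5 : (ε : K) / w = aeval x A - w := by
        field_simp
        linear_combination h
      rw [h5]
      have h6 : ((y : K) - w) * ((y : K) - (aeval x A - w))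
          = ((y : K) ^ 2 - aeval x A * (y : K) + ε) - (w ^ 2 - aeval x A * w + ε) := by ring
      rw [h6, h1, h, sub_zero]
    rcases mul_eq_zero.1 h4 with h7 | h7
    · apply hnot
      rw [← sub_eq_zero.1 h7]
      exact y.2
    · apply hw'not
      rw [← sub_eq_zero.1 h7]
      exact y.2
  have hgw : aeval w g = 0 := by rw [haevalg]; exact h
  have hgw' : aeval ((ε : K) / w) g = 0 := by rw [haevalg]; exact hw'eq
  have hmin : minpoly F w = g := (minpoly.eq_of_irreducible_of_monic hgirr hgw hgm).symm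
  have hint : IsIntegral F w := ⟨g, hgm, hgw⟩
  have htop : IntermediateField.adjoin F {w} = ⊤ := by
    have h1 := IntermediateField.adjoin_simple_adjoin_simple (F := ℚ) x w
    rw [hK] at h1
    rw [← IntermediateField.restrictScalars_eq_top_iff (K := ℚ)]
    exact h1
  -- the homomorphism
  let φ₀ : IntermediateField.adjoin F {w} →ₐ[F] K :=
    (IntermediateField.algHomAdjoinIntegralEquiv F hint).symm
      ⟨(ε : K) / w, by
        rw [mem_aroots, hmin]
        exact ⟨hgm.ne_zero, hgw'⟩⟩
  have hφ₀ : φ₀ (IntermediateField.AdjoinSimple.gen F w) = (ε : K) / w :=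
    IntermediateField.algHomAdjoinIntegralEquiv_symm_apply_gen F hint _
  let e : K ≃ₐ[F] IntermediateField.adjoin F {w} :=
    (IntermediateField.topEquiv (F := F) (E := K)).symm.trans
      (IntermediateField.equivOfEq htop.symm)
  let φ : K →ₐ[F] K := φ₀.comp (e : K →ₐ[F] IntermediateField.adjoin F {w})
  have hφw : φ w = (ε : K) / w := by
    show φ₀ (e w) = _
    rw [← hφ₀]
    congr 1
  have hφx : φ x = x := by
    have h1 : φ (algebraMap F K ⟨x, hxF⟩) = algebraMap F K ⟨x, hxF⟩ := φ.commutes _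
    exact h1
  have hsurj : Function.Surjective φ := by
    have h1 : IntermediateField.adjoin F {w} ≤ φ.fieldRange := by
      rw [IntermediateField.adjoin_simple_le_iff]
      refine ⟨(ε : K) / w, ?_⟩
      show φ ((ε : K) / w) = w
      rw [map_div₀, map_intCast, hφw]
      field_simp
    rw [htop, top_le_iff] at h1
    intro y
    have hy : y ∈ φ.fieldRange := by rw [h1]; trivial
    exact hy
  refine ⟨RingEquiv.ofBijective φ.toRingHom ⟨φ.toRingHom.injective, hsurj⟩, ?_, ?_⟩
  · exact hφx
  · exact hφw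

end HYI
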