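import Mathlib
import Pool.Agent.ISI.Ptsa
import Pool.Agent.ISI.Ptsb

/-! MODULE HYI-Place (places of a quadratic extension of `ℚ(y)` over a complex point).

`K = ℚ(y, z)`, `y` transcendental, `z` a root of `T² - A(y) T + B(y)`, `z ∉ ℚ(y)`.

PLAN. Let `g = X² - C A * X + C B : ℚ[X][X]` (monic of degree 2) and `R = AdjoinRoot g`, a
`ℚ[X]`-algebra, free with basis `1, root` (`Monic.free_adjoinRoot`/`AdjoinRoot.powerBasis'`;
finite: `Monic.finite_adjoinRoot`). `j : R →+* K`, `AdjoinRoot.lift (aeval y : ℚ[X] →+* K) z _`, is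
injective: an element of `R` is `mk g (C a + C b * X)` (`modByMonic` of degree < 2,
`AdjoinRoot.mk_leftInverse`/`AdjoinRoot.modByMonicHom`), and if `a(y) + b(y) z = 0` then `b = 0`
(otherwise `z = -a(y)/b(y) ∈ ℚ(y)`) and `a = 0` (`y` is transcendental). So `R` is a domain
(`Function.Injective.isDomain`). With `letI : Algebra R K := j.toAlgebra`, `K` is the fraction field
of `R`: the set of quotients `j s / j t` is a subfield of `K` containing `y`, `z` and `ℚ`, hence
everything by `hK` (`IsFractionRing.of_field`: `∀ k : K, ∃ s t, k = algebraMap s / algebraMap t`;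
induction `IntermediateField.adjoin_induction`).
`exists_dedekind` (ISI/Ptsa) with `ψ = AdjoinRoot.of g` gives the Dedekind ring `B'`. The
homomorphism `φ : R →+* ℂ`, `AdjoinRoot.lift (aeval a) b _` extends to `B'` (`exists_ext`), and
`exists_val` applied to the element `p(y) ≠ 0` of `B'`, whose image is `p(a) = 0`, gives `O`, `ρ`.
`y` and `z` are in the image of `R`. Rational numbers: `algebraMap ℚ`/`C q` in `ℚ[X] → R`. -/

namespace HYI

open Polynomial Pool.Agent.ISI

private noncomputable def place_g (A B : ℚ[X]) : ℚ[X][X] := X ^ 2 - C A * X + C B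

private theorem place_g_eq (A B : ℚ[X]) : place_g A B = X ^ 2 - (C A * X - C B) := by
  rw [place_g]; ring

private theorem place_deg (A B : ℚ[X]) : (C A * X - C B : ℚ[X][X]).degree < ((2 : ℕ) : WithBot ℕ) := by
  refine lt_of_le_of_lt (degree_sub_le _ _) (max_lt ?_ ?_)
  · refine lt_of_le_of_lt (degree_C_mul_X_le A) ?_
    exact_mod_cast (by norm_num : (1 : ℕ) < 2)
  · refine lt_of_le_of_lt degree_C_le ?_
    exact_mod_cast (by norm_num : (0 : ℕ) < 2)

private theorem place_monic (A B : ℚ[X]) : (place_g A B).Monic := by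
  rw [place_g_eq]
  exact monic_X_pow_sub (place_deg A B)

private theorem place_natDegree (A B : ℚ[X]) : (place_g A B).natDegree = 2 := by
  rw [place_g_eq]
  refine natDegree_eq_of_degree_eq_some ?_
  rw [degree_sub_eq_left_of_degree_lt]
  · exact degree_X_pow 2
  · rw [degree_X_pow]
    exact place_deg A B

private theorem place_rep (A B : ℚ[X]) (r : AdjoinRoot (place_g A B)) :
    ∃ u v : ℚ[X], r = AdjoinRoot.of (place_g A B) u +
      AdjoinRoot.of (place_g A B) v * AdjoinRoot.root (place_g A B) := by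
  obtain ⟨f, rfl⟩ := AdjoinRoot.mk_surjective r
  have h1 : AdjoinRoot.mk (place_g A B) f = AdjoinRoot.mk (place_g A B) (f %ₘ place_g A B) := by
    conv_lhs => rw [← modByMonic_add_div f (place_g A B)]
    rw [map_add, map_mul, AdjoinRoot.mk_self, zero_mul, add_zero]
  have h2 : (f %ₘ place_g A B).natDegree < 2 := by
    have h3 := natDegree_modByMonic_lt f (place_monic A B) (by
      intro h
      have := place_natDegree A B
      rw [h, natDegree_one] at this
      omega)
    rwa [place_natDegree] at h3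
  obtain ⟨v, u, huv⟩ := exists_eq_X_add_C_of_natDegree_le_one (by omega :
    (f %ₘ place_g A B).natDegree ≤ 1)
  refine ⟨u, v, ?_⟩
  rw [h1, huv, map_add, map_mul, AdjoinRoot.mk_X, AdjoinRoot.mk_C, AdjoinRoot.mk_C, add_comm]

private theorem place_eval (A B : ℚ[X]) (S : Type) [CommRing S] [Algebra ℚ S] (y z : S)
    (h : z ^ 2 - aeval y A * z + aeval y B = 0) :
    (place_g A B).eval₂ ((aeval y : ℚ[X] →ₐ[ℚ] S) : ℚ[X] →+* S) z = 0 := by
  rw [place_g, eval₂_add, eval₂_sub, eval₂_mul, eval₂_pow, eval₂_X, eval₂_C, eval₂_C]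
  exact h

theorem exists_place (K : Type) [Field K] [CharZero K] (y z : K) (hy : Transcendental ℚ y)
    (hK : IntermediateField.adjoin ℚ {y, z} = ⊤) (A B : ℚ[X])
    (h : z ^ 2 - aeval y A * z + aeval y B = 0) (hz : z ∉ IntermediateField.adjoin ℚ {y})
    (a b : ℂ) (p : ℚ[X]) (hp : p ≠ 0) (ha : aeval a p = 0)
    (hab : b ^ 2 - aeval a A * b + aeval a B = 0) :
    ∃ (O : ValuationSubring K) (ρ : O →+* ℂ), IsDiscreteValuationRing O ∧
      (∀ t : O, ρ t = 0 ↔ O.valuation (t : K) < 1) ∧ (∀ q : ℚ, (q : K) ∈ O) ∧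
      (∃ h1 : y ∈ O, ρ ⟨y, h1⟩ = a) ∧ ∃ h2 : z ∈ O, ρ ⟨z, h2⟩ = b := by
  have hyinj : Function.Injective (aeval y : ℚ[X] →ₐ[ℚ] K) :=
    transcendental_iff_injective.1 hy
  let j : AdjoinRoot (place_g A B) →+* K :=
    AdjoinRoot.lift ((aeval y : ℚ[X] →ₐ[ℚ] K) : ℚ[X] →+* K) z (place_eval A B K y z h)
  have jof : ∀ u : ℚ[X], j (AdjoinRoot.of (place_g A B) u) = aeval y u := fun u =>
    AdjoinRoot.lift_of _
  have jroot : j (AdjoinRoot.root (place_g A B)) = z := AdjoinRoot.lift_root _
  have hmem : ∀ u : ℚ[X], aeval y u ∈ IntermediateField.adjoin ℚ {y} := by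
    intro u
    have h1 : y ∈ IntermediateField.adjoin ℚ {y} :=
      IntermediateField.subset_adjoin ℚ _ (Set.mem_singleton y)
    have h2 : aeval y u = ((aeval (⟨y, h1⟩ : IntermediateField.adjoin ℚ {y}) u :
        IntermediateField.adjoin ℚ {y}) : K) := by
      have := aeval_algebraMap_apply K (⟨y, h1⟩ : IntermediateField.adjoin ℚ {y}) u
      exact this
    rw [h2]
    exact SetLike.coe_mem _
  have hinj : Function.Injective j := by
    rw [injective_iff_map_eq_zero]
    intro r hr
    obtain ⟨u, v, rfl⟩ := place_rep A B r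
    rw [map_add, map_mul, jof, jof, jroot] at hr
    have hv : v = 0 := by
      by_contra hv
      have hv1 : aeval y v ≠ 0 := by
        intro h0
        exact hv (hyinj (by rw [h0, map_zero]))
      apply hz
      have e : z = -(aeval y u) / aeval y v := by
        rw [eq_div_iff hv1]
        linear_combination hr
      rw [e]
      exact div_mem (neg_mem (hmem u)) (hmem v)
    rw [hv, map_zero, zero_mul, add_zero] at hr
    have hu : u = 0 := hyinj (by rw [hr, map_zero])
    rw [hu, hv, map_zero, zero_mul, add_zero]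
  have hdom : IsDomain (AdjoinRoot (place_g A B)) := Function.Injective.isDomain j hinj
  let _ : Algebra (AdjoinRoot (place_g A B)) K := j.toAlgebra
  have halg : algebraMap (AdjoinRoot (place_g A B)) K = j := rfl
  have hsurj : ∀ k : K, ∃ s t : AdjoinRoot (place_g A B), k = j s / j t := by
    intro k
    let L : FractionRing (AdjoinRoot (place_g A B)) →+* K := IsFractionRing.lift hinj
    have hL : ∀ s, L (algebraMap _ _ s) = j s := fun s => IsFractionRing.lift_algebraMap hinj s
    have h1 : k ∈ L.fieldRange := by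
      have hk : k ∈ IntermediateField.adjoin ℚ {y, z} := by
        rw [hK]
        exact IntermediateField.mem_top
      refine IntermediateField.adjoin_induction ℚ (p := fun x _ => x ∈ L.fieldRange)
        ?_ ?_ ?_ ?_ ?_ hk
      · intro x hx
        rcases hx with rfl | hx
        · exact ⟨algebraMap _ _ (AdjoinRoot.of _ X), by rw [hL, jof, aeval_X]⟩
        · rw [Set.mem_singleton_iff.1 hx]
          exact ⟨algebraMap _ _ (AdjoinRoot.root _), by rw [hL, jroot]⟩
      · intro q
        exact ⟨algebraMap _ _ (AdjoinRoot.of _ (C q)), by rw [hL, jof, aeval_C]⟩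
      · intro x x' _ _ hx hx'
        exact add_mem hx hx'
      · intro x _ hx
        exact inv_mem hx
      · intro x x' _ _ hx hx'
        exact mul_mem hx hx'
    obtain ⟨q, hq⟩ := h1
    obtain ⟨s, t, -, hst⟩ := IsFractionRing.div_surjective (A := AdjoinRoot (place_g A B)) q
    exact ⟨s, t, by rw [← hq, ← hst, map_div₀, hL, hL]⟩
  have : FaithfulSMul (AdjoinRoot (place_g A B)) K :=
    (faithfulSMul_iff_algebraMap_injective _ _).2 hinj
  have : IsFractionRing (AdjoinRoot (place_g A B)) K :=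
    IsFractionRing.of_field _ _ hsurj
  have hψ : Function.Injective (AdjoinRoot.of (place_g A B)) := by
    intro u v huv
    apply hyinj
    rw [← jof, ← jof, huv]
  have hf : (AdjoinRoot.of (place_g A B)).Finite := by
    have h1 : Module.Finite ℚ[X] (AdjoinRoot (place_g A B)) := (place_monic A B).finite_adjoinRoot
    exact RingHom.finite_algebraMap.2 h1
  obtain ⟨B', hD, hF, hA, hB⟩ := exists_dedekind (AdjoinRoot (place_g A B))
    (AdjoinRoot.of (place_g A B)) hψ hf K
  let φ : AdjoinRoot (place_g A B) →+* ℂ :=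
    AdjoinRoot.lift ((aeval a : ℚ[X] →ₐ[ℚ] ℂ) : ℚ[X] →+* ℂ) b (place_eval A B ℂ a b hab)
  have φof : ∀ u : ℚ[X], φ (AdjoinRoot.of (place_g A B) u) = aeval a u := fun u =>
    AdjoinRoot.lift_of _
  have φroot : φ (AdjoinRoot.root (place_g A B)) = b := AdjoinRoot.lift_root _
  obtain ⟨φ', hφ'⟩ := exists_ext (AdjoinRoot (place_g A B)) K B' hA hB φ
  have hpne : (⟨algebraMap _ K (AdjoinRoot.of (place_g A B) p), hA _⟩ : B') ≠ 0 := by
    intro h0
    have h1 : algebraMap _ K (AdjoinRoot.of (place_g A B) p) = 0 := congrArg Subtype.val h0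
    rw [halg, jof] at h1
    exact hp (hyinj (by rw [h1, map_zero]))
  obtain ⟨O, ρ, hdvr, hO, hρ⟩ := exists_val K B' φ' _ hpne (by rw [hφ', φof, ha])
  refine ⟨O, ρ, hdvr, hρ, ?_, ?_, ?_⟩
  · intro q
    obtain ⟨h1, -⟩ := hO ⟨algebraMap _ K (AdjoinRoot.of (place_g A B) (C q)), hA _⟩
    have h2 : algebraMap _ K (AdjoinRoot.of (place_g A B) (C q)) = (q : K) := by
      rw [halg, jof, aeval_C]
      exact eq_ratCast (algebraMap ℚ K) q
    simpa only [h2] using h1
  · obtain ⟨h1, h3⟩ := hO ⟨algebraMap _ K (AdjoinRoot.of (place_g A B) X), hA _⟩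
    have h2 : algebraMap _ K (AdjoinRoot.of (place_g A B) X) = y := by
      rw [halg, jof, aeval_X]
    have h4 : y ∈ O := by simpa only [h2] using h1
    refine ⟨h4, ?_⟩
    rw [hφ', φof, aeval_X] at h3
    rw [← h3]
    congr 1
    exact Subtype.ext h2.symm
  · obtain ⟨h1, h3⟩ := hO ⟨algebraMap _ K (AdjoinRoot.root (place_g A B)), hA _⟩
    have h2 : algebraMap _ K (AdjoinRoot.root (place_g A B)) = z := by
      rw [halg, jroot]
    have h4 : z ∈ O := by simpa only [h2] using h1
    refine ⟨h4, ?_⟩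
    rw [hφ', φroot] at h3
    rw [← h3]
    congr 1
    exact Subtype.ext h2.symm

end HYI
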