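import Mathlib
import Pool.Agent.HYI.Base
import Pool.Agent.HYI.Place
import Pool.Agent.HYI.Invol

/-! Consequences of `Place` and `Invol` for the curve `w² - f(x) w + ε = 0`. -/

namespace HYI

open Polynomial Pool.Agent.Helper11 Pool.Agent.ISI

variable {r : ℕ} {P : Fin (r + 1) → ℤ[X]} {e : Fin (r + 1) → ℕ} {c κ ε : ℤ} {K : Type}
  [Field K] [CharZero K] {x : K} {v : Kˣ}

/-- `f` with rational coefficients -/
noncomputable def fQ (P : Fin (r + 1) → ℤ[X]) (e : Fin (r + 1) → ℕ) (c κ : ℤ) : ℚ[X] :=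
  (fp P e c κ).map (Int.castRingHom ℚ)

lemma aeval_fQ {S : Type*} [Field S] [CharZero S] (s : S) :
    aeval s (fQ P e c κ) = aeval s (fp P e c κ) := by
  unfold fQ
  have h : (Int.castRingHom ℚ) = algebraMap ℤ ℚ := rfl
  rw [h, aeval_map_algebraMap]

lemma aeval_fp {S : Type*} [Field S] [CharZero S] (s : S) :
    aeval s (fp P e c κ) = c * ∏ i, aeval s (P i) ^ e i + κ := by
  unfold fp
  simp

namespace Cur

lemma fp_natDegree (H : Cur P e c κ ε x v) :
    (fp P e c κ).natDegree = ∑ i, e i * (P i).natDegree := by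
  unfold fp
  rw [natDegree_add_C, natDegree_C_mul H.hc, natDegree_prod_of_monic _ _ fun i _ => (H.hm i).pow _]
  exact Finset.sum_congr rfl fun i _ => (H.hm i).natDegree_pow _

lemma sum_pos (H : Cur P e c κ ε x v) : 0 < ∑ i, e i * (P i).natDegree := by
  refine Finset.sum_pos (fun i _ => Nat.mul_pos (Nat.pos_of_ne_zero (H.he i)) (H.deg_pos i)) ?_
  exact ⟨0, Finset.mem_univ _⟩

lemma fQ_natDegree (H : Cur P e c κ ε x v) :
    (fQ P e c κ).natDegree = ∑ i, e i * (P i).natDegree := by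
  unfold fQ
  rw [natDegree_map_eq_of_injective (RingHom.injective_int (Int.castRingHom ℚ)), H.fp_natDegree]

lemma hQ (H : Cur P e c κ ε x v) :
    (v : K) ^ 2 - aeval x (fQ P e c κ) * v + ε = 0 := by
  rw [aeval_fQ]
  exact H.h

lemma v_not_mem (H : Cur P e c κ ε x v) : (v : K) ∉ IntermediateField.adjoin ℚ {x} :=
  not_mem H.hx (by rw [H.fQ_natDegree]; exact H.sum_pos) H.hε H.hQ

/-- the place over a point of the curve -/
theorem place (H : Cur P e c κ ε x v) (a b : ℂ) (p : ℚ[X]) (hp : p ≠ 0) (ha : aeval a p = 0)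
    (hab : b ^ 2 - aeval a (fp P e c κ) * b + ε = 0) :
    ∃ (O : ValuationSubring K) (ρ : O →+* ℂ), IsDiscreteValuationRing O ∧
      (∀ t : O, ρ t = 0 ↔ O.valuation (t : K) < 1) ∧ (∀ q : ℚ, (q : K) ∈ O) ∧
      (∃ h1 : x ∈ O, ρ ⟨x, h1⟩ = a) ∧ ∃ h2 : (v : K) ∈ O, ρ ⟨v, h2⟩ = b := by
  have h3 : (v : K) ^ 2 - aeval x (fQ P e c κ) * v + aeval x (C (ε : ℚ)) = 0 := by
    rw [aeval_C]
    simpa using H.hQ
  refine exists_place K x v H.hx H.hK (fQ P e c κ) (C (ε : ℚ)) h3 H.v_not_mem a b p hp ha ?_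
  rw [aeval_fQ, aeval_C]
  simpa using hab

/-- the involution -/
theorem invol (H : Cur P e c κ ε x v) : ∃ σ : K ≃+* K, σ x = x ∧ σ v = ε / v :=
  exists_invol H.hx H.hK (by rw [H.fQ_natDegree]; exact H.sum_pos) H.hε H.hQ

end Cur

end HYI
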