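import Mathlib
import Pool.Agent.Helper11.CGen

/-! MODULE HYI-Span (symbols of a group generated by a group and one element).

PLAN. Every element of `G ⊔ zpowers v` is `g * v ^ n` (`Subgroup.mem_sup`, `Subgroup.mem_zpowers_iff`).
`sy (g v^m) (h v^n) = sy g h + n sy g v - m sy h v` (as `sy v v = 0`: `sy_self`, `sy_anti`,
`sy_mul_left`, `sy_mul_right`, `sy_zpow_left/right`) and `= sy g h + sy (g^n / h^m) v`.
Then induction on the span, with the predicate `∃ M ≠ 0, ∃ h ∈ G, (M : ℚ) • z - sy h v ∈ S`: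
0: `M = 1, h = 1`; sum: `M = M₁ M₂`, `h = h₁^M₂ h₂^M₁`; scalar `q`: `q = a / d`, replace `M` by
`M d` and `h` by `h ^ a` (`M d q = M a`). -/

namespace HYI

open Pool.Agent.Helper11

private lemma span_exists_pow {K : Type} [Field K] (G : Subgroup Kˣ) (v : Kˣ) {a : Kˣ}
    (ha : a ∈ G ⊔ Subgroup.zpowers v) : ∃ g ∈ G, ∃ m : ℤ, a = g * v ^ m := by
  obtain ⟨g, hg, w, hw, rfl⟩ := Subgroup.mem_sup.1 ha
  obtain ⟨m, rfl⟩ := Subgroup.mem_zpowers_iff.1 hw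
  exact ⟨g, hg, m, rfl⟩

private lemma span_pair {K : Type} [Field K] (v g g' : Kˣ) (m n : ℤ) :
    sy (g * v ^ m) (g' * v ^ n) = sy g g' + sy (g ^ n * g' ^ (-m)) v := by
  rw [sy_mul_left, sy_mul_right, sy_mul_right, sy_zpow_left, sy_zpow_right, sy_mul_left,
    sy_zpow_left, sy_zpow_left, sy_zpow_left, sy_zpow_right, sy_self, sy_anti v g']
  push_cast
  module

theorem span_split {K : Type} [Field K] (G : Subgroup Kˣ) (v : Kˣ) {z : KMQ K 2}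
    (hz : z ∈ Submodule.span ℚ {t : KMQ K 2 | ∃ a ∈ G ⊔ Subgroup.zpowers v,
      ∃ b ∈ G ⊔ Subgroup.zpowers v, t = sy a b}) :
    ∃ (M : ℕ) (h : Kˣ), M ≠ 0 ∧ h ∈ G ∧
      (M : ℚ) • z - sy h v ∈ Submodule.span ℚ {t : KMQ K 2 | ∃ a ∈ G, ∃ b ∈ G, t = sy a b} := by
  induction hz using Submodule.span_induction with
  | mem z hz =>
    obtain ⟨a, ha, b, hb, rfl⟩ := hz
    obtain ⟨g, hg, m, rfl⟩ := span_exists_pow G v ha
    obtain ⟨g', hg', n, rfl⟩ := span_exists_pow G v hb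
    refine ⟨1, g ^ n * g' ^ (-m), one_ne_zero,
      G.mul_mem (G.zpow_mem hg n) (G.zpow_mem hg' (-m)), ?_⟩
    rw [span_pair, Nat.cast_one, one_smul, add_sub_cancel_right]
    exact Submodule.subset_span ⟨g, hg, g', hg', rfl⟩
  | zero =>
    refine ⟨1, 1, one_ne_zero, G.one_mem, ?_⟩
    rw [smul_zero, sy_anti, sy_one_right, neg_zero, sub_zero]
    exact Submodule.zero_mem _
  | add z₁ z₂ _ _ ih₁ ih₂ =>
    obtain ⟨M₁, h₁, hM₁, hh₁, e₁⟩ := ih₁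
    obtain ⟨M₂, h₂, hM₂, hh₂, e₂⟩ := ih₂
    refine ⟨M₁ * M₂, h₁ ^ (M₂ : ℤ) * h₂ ^ (M₁ : ℤ), mul_ne_zero hM₁ hM₂,
      G.mul_mem (G.zpow_mem hh₁ _) (G.zpow_mem hh₂ _), ?_⟩
    have e : ((M₁ * M₂ : ℕ) : ℚ) • (z₁ + z₂) - sy (h₁ ^ (M₂ : ℤ) * h₂ ^ (M₁ : ℤ)) v =
        (M₂ : ℚ) • ((M₁ : ℚ) • z₁ - sy h₁ v) + (M₁ : ℚ) • ((M₂ : ℚ) • z₂ - sy h₂ v) := by
      rw [sy_mul_left, sy_zpow_left, sy_zpow_left]
      push_cast
      module
    rw [e]
    exact Submodule.add_mem _ (Submodule.smul_mem _ _ e₁) (Submodule.smul_mem _ _ e₂)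
  | smul q z _ ih =>
    obtain ⟨M, h, hM, hh, e⟩ := ih
    refine ⟨M * q.den, h ^ q.num, mul_ne_zero hM q.den_ne_zero, G.zpow_mem hh _, ?_⟩
    have hq : (q.den : ℚ) * q = (q.num : ℚ) := by
      rw [mul_comm]
      exact Rat.mul_den_eq_num q
    have e' : ((M * q.den : ℕ) : ℚ) • (q • z) - sy (h ^ q.num) v =
        (q.num : ℚ) • ((M : ℚ) • z - sy h v) := by
      rw [sy_zpow_left, smul_sub, smul_smul, smul_smul, ← hq]
      push_cast
      congr 2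
      ring
    rw [e']
    exact Submodule.smul_mem _ _ e

end HYI
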