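import Mathlib
import Pool.Agent.Helper11.CGen
import Pool.Agent.Helper11.CDefs

/-! MODULE HYI-Stab (the integral part is stable under automorphisms).

PLAN. `z ∈ integralM K 2` means `z ∈ unrM O 2` for every `O` (`Submodule.mem_iInf`). Given a discrete
valuation ring `O` of `K`, let `O' = O.comap (σ : K →+* K)` (`ValuationSubring.comap`; `u ∈ O'` iff
`σ u ∈ O`); `O' ≃+* O` by `σ`, so `O'` is a discrete valuation ring
(`RingEquiv.isDiscreteValuationRing`/`IsDiscreteValuationRing.of...` via `MulEquiv`; or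
`IsDiscreteValuationRing.iff_pid_with_one_nonzero_prime`). `z ∈ unrM O' 2` is a combination of
symbols of units of `O'`, whose images under `σ` are units of `O`: `Submodule.span_induction`,
`KMQ.map_symM` (Helper11/KApi), `ValuationSubring.mem_unitGroup_iff` and
`u ∈ O.unitGroup ↔ (u : K) ∈ O ∧ ((u⁻¹ : Kˣ) : K) ∈ O`. -/

namespace HYI

open Pool.Agent.Helper11

private lemma Stab_unit {K : Type} [Field K] (O : ValuationSubring K) (u : Kˣ) :
    u ∈ O.unitGroup ↔ (u : K) ∈ O ∧ ((u⁻¹ : Kˣ) : K) ∈ O := by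
  constructor
  · intro h
    exact ⟨O.mem_of_valuation_le_one _ (le_of_eq h),
      O.mem_of_valuation_le_one _ (le_of_eq (O.unitGroup.inv_mem h))⟩
  · rintro ⟨h1, h2⟩
    have h3 : O.valuation (u : K) ≤ 1 := (O.valuation_le_one_iff _).2 h1
    have h4 : O.valuation ((u⁻¹ : Kˣ) : K) ≤ 1 := (O.valuation_le_one_iff _).2 h2
    have h5 : O.valuation (u : K) * O.valuation ((u⁻¹ : Kˣ) : K) = 1 := by
      rw [← map_mul, Units.mul_inv, map_one]
    rw [ValuationSubring.mem_unitGroup_iff]
    refine le_antisymm h3 ?_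
    calc (1 : O.ValueGroup) = O.valuation (u : K) * O.valuation ((u⁻¹ : Kˣ) : K) := h5.symm
      _ ≤ O.valuation (u : K) * 1 := mul_le_mul_right h4 _
      _ = O.valuation (u : K) := mul_one _

/-- the isomorphism between a valuation ring and its inverse image -/
private def Stab_e {K : Type} [Field K] (σ : K ≃+* K) (O : ValuationSubring K) :
    O ≃+* (O.comap (σ : K →+* K)) where
  toFun x := ⟨σ.symm x, by
    rw [ValuationSubring.mem_comap]
    simp⟩
  invFun x := ⟨σ x, ValuationSubring.mem_comap.1 x.2⟩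
  left_inv x := by
    apply Subtype.ext
    simp
  right_inv x := by
    apply Subtype.ext
    simp
  map_mul' x y := by
    apply Subtype.ext
    simp
  map_add' x y := by
    apply Subtype.ext
    simp

theorem map_integral {K : Type} [Field K] (σ : K ≃+* K) {z : KMQ K 2}
    (hz : z ∈ integralM K 2) : KMQ.map (σ : K →+* K) 2 z ∈ integralM K 2 := by
  rw [integralM, Submodule.mem_iInf] at hz ⊢
  intro O
  rw [Submodule.mem_iInf]
  intro hO
  have hO' : IsDiscreteValuationRing (O.comap (σ : K →+* K)) :=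
    IsDiscreteValuationRing.RingEquivClass.isDiscreteValuationRing (Stab_e σ O)
  have h1 := hz (O.comap (σ : K →+* K))
  rw [Submodule.mem_iInf] at h1
  have h2 := h1 hO'
  unfold unrM at h2
  refine Submodule.span_induction (p := fun z _ => KMQ.map (σ : K →+* K) 2 z ∈ unrM O 2)
    ?_ ?_ ?_ ?_ h2
  · rintro x ⟨f, hf, rfl⟩
    rw [KMQ.map_symM]
    refine Submodule.subset_span ⟨_, fun i => ?_, rfl⟩
    have h3 := (Stab_unit _ _).1 (hf i)
    rw [Stab_unit]
    refine ⟨ValuationSubring.mem_comap.1 h3.1, ?_⟩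
    rw [← map_inv]
    exact ValuationSubring.mem_comap.1 h3.2
  · rw [map_zero]
    exact Submodule.zero_mem _
  · intro x y _ _ hx hy
    rw [map_add]
    exact Submodule.add_mem _ hx hy
  · intro a x _ hx
    rw [map_smul]
    exact Submodule.smul_mem _ a hx

theorem map_sy {K L : Type} [Field K] [Field L] (σ : K →+* L) (u v : Kˣ) :
    KMQ.map σ 2 (sy u v) = sy (Units.map (σ : K →* L) u) (Units.map (σ : K →* L) v) := by
  unfold sy
  rw [KMQ.map_symM]
  congr 1
  funext i
  fin_cases i <;> rfl

end HYI
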