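import Mathlib
import Pool.Agent.HYI.Base

/-! MODULE HYI-Lpx (elements of `xGroup` are quotients of values of polynomials).

`xGroup_quot`: an element of `xGroup P f ε x` is `cst q ∏ (P i)(x)^(m i) a(x) / b(x)` with `a`, `b` monic
polynomials which avoid the cyclotomic points. PLAN: `Subgroup.closure_induction`. Generators
`P i`: `m = Pi.single i 1`. Generators `p(x)`: `p ≠ 0`, `q` = leading coefficient,
`a = C q⁻¹ * p` (same zeros, so still `Avoids`). Products: `a a'`, `b b'` (`Avoids` for a product: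
`aeval a (p * p') = 0` implies one factor vanishes). Inverses: exchange `a` and `b`.
`span_le_LP`: the symbols of elements of `xGroup` are in `LP x` (`ISI/Base`): by `xGroup_quot` (or
directly) every element of `xGroup` is `pq x p / pq x q`, `p, q ≠ 0`; `sy_div_left`, `sy_div_right`. -/

namespace HYI

open Polynomial Pool.Agent.Helper11 Pool.Agent.ISI

variable {r : ℕ} {P : Fin (r + 1) → ℤ[X]} {f : ℤ[X]} {ε : ℤ} {K : Type} [Field K] [CharZero K]
  {x : K}

private lemma Lpx_av_one : Avoids f ε 1 := by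
  intro a b h
  rw [map_one] at h
  exact absurd h one_ne_zero

private lemma Lpx_av_mul {p q : ℚ[X]} (hp : Avoids f ε p) (hq : Avoids f ε q) :
    Avoids f ε (p * q) := by
  intro a b h
  rw [map_mul] at h
  rcases mul_eq_zero.1 h with h1 | h1
  · exact hp a b h1
  · exact hq a b h1

private lemma Lpx_cst_one : cst K 1 = 1 := by
  apply Units.ext
  rw [cst_val]
  simp

private lemma Lpx_cst_mul (q q' : ℚˣ) : cst K (q * q') = cst K q * cst K q' := by
  apply Units.ext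
  rw [Units.val_mul, cst_val, cst_val, cst_val]
  simp

private lemma Lpx_cst_inv (q : ℚˣ) : cst K q⁻¹ = (cst K q)⁻¹ := by
  apply Units.ext
  rw [Units.val_inv_eq_inv_val, cst_val, cst_val]
  simp

private lemma Lpx_pq_one (hx : Transcendental ℚ x) : pq x 1 = 1 := by
  apply Units.ext
  rw [pq_val hx one_ne_zero, map_one, Units.val_one]

private lemma Lpx_quot_zpow (hx : Transcendental ℚ x) {p : ℚ[X]} (hp : p ≠ 0) (m : ℤ) :
    ∃ a b : ℚ[X], a ≠ 0 ∧ b ≠ 0 ∧ pq x p ^ m = pq x a / pq x b := by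
  obtain ⟨n, rfl | rfl⟩ := m.eq_nat_or_neg
  · exact ⟨p ^ n, 1, pow_ne_zero n hp, one_ne_zero, by
      rw [Lpx_pq_one hx, div_one, pq_pow hx hp, zpow_natCast]⟩
  · exact ⟨1, p ^ n, one_ne_zero, pow_ne_zero n hp, by
      rw [Lpx_pq_one hx, one_div, pq_pow hx hp, zpow_neg, zpow_natCast]⟩

private lemma Lpx_quot_prod (hx : Transcendental ℚ x) {ι : Type} (s : Finset ι) (u : ι → Kˣ)
    (hu : ∀ i, ∃ a b : ℚ[X], a ≠ 0 ∧ b ≠ 0 ∧ u i = pq x a / pq x b) :
    ∃ a b : ℚ[X], a ≠ 0 ∧ b ≠ 0 ∧ ∏ i ∈ s, u i = pq x a / pq x b := by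
  classical
  induction s using Finset.induction_on with
  | empty =>
    exact ⟨1, 1, one_ne_zero, one_ne_zero, by rw [Finset.prod_empty, div_self']⟩
  | insert i s hi ih =>
    obtain ⟨a, b, ha, hb, h1⟩ := ih
    obtain ⟨a', b', ha', hb', h2⟩ := hu i
    refine ⟨a' * a, b' * b, mul_ne_zero ha' ha, mul_ne_zero hb' hb, ?_⟩
    rw [Finset.prod_insert hi, h1, h2, pq_mul hx ha' ha, pq_mul hx hb' hb, mul_div_mul_comm]

theorem xGroup_quot (hx : Transcendental ℚ x) (hP : ∀ i, P i ≠ 0) {h : Kˣ}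
    (hh : h ∈ xGroup P f ε x) :
    ∃ (q : ℚˣ) (m : Fin (r + 1) → ℤ) (a b : ℚ[X]), a.Monic ∧ b.Monic ∧ Avoids f ε a ∧
      Avoids f ε b ∧ h = cst K q * (∏ i, pz x (P i) ^ m i) * (pq x a / pq x b) := by
  refine Subgroup.closure_induction (p := fun h _ => ∃ (q : ℚˣ) (m : Fin (r + 1) → ℤ) (a b : ℚ[X]),
    a.Monic ∧ b.Monic ∧ Avoids f ε a ∧ Avoids f ε b ∧
      h = cst K q * (∏ i, pz x (P i) ^ m i) * (pq x a / pq x b)) ?_ ?_ ?_ ?_ hh
  · rintro u (⟨i, hi⟩ | ⟨p, hp, hu⟩)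
    · refine ⟨1, Pi.single i 1, 1, 1, monic_one, monic_one, Lpx_av_one, Lpx_av_one, ?_⟩
      have h1 : u = pz x (P i) := by
        apply Units.ext
        rw [hi, pz_val hx (hP i)]
      have h2 : ∏ j, pz x (P j) ^ (Pi.single i (1 : ℤ) : Fin (r + 1) → ℤ) j = pz x (P i) := by
        rw [Finset.prod_eq_single i]
        · rw [Pi.single_eq_same, zpow_one]
        · intro j _ hj
          rw [Pi.single_eq_of_ne hj, zpow_zero]
        · intro h3
          exact absurd (Finset.mem_univ i) h3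
      rw [h2, Lpx_cst_one, one_mul, div_self', mul_one, h1]
    · have hp0 : p ≠ 0 := by
        rintro rfl
        rw [map_zero] at hu
        exact u.ne_zero hu
      have hl : p.leadingCoeff ≠ 0 := leadingCoeff_ne_zero.2 hp0
      have h3 : C p.leadingCoeff * (C p.leadingCoeff⁻¹ * p) = p := by
        rw [← mul_assoc, ← C_mul, mul_inv_cancel₀ hl, C_1, one_mul]
      have hm : (C p.leadingCoeff⁻¹ * p).Monic := by
        unfold Monic
        rw [leadingCoeff_mul, leadingCoeff_C, inv_mul_cancel₀ hl]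
      refine ⟨Units.mk0 _ hl, 0, C p.leadingCoeff⁻¹ * p, 1, hm, monic_one, ?_, Lpx_av_one, ?_⟩
      · intro a b ha
        apply hp a b
        rw [map_mul, aeval_C] at ha
        rcases mul_eq_zero.1 ha with h4 | h4
        · exfalso
          have h5 := (map_eq_zero (algebraMap ℚ ℂ)).1 h4
          exact inv_ne_zero hl h5
        · exact h4
      · have h4 : ∏ j, pz x (P j) ^ (0 : Fin (r + 1) → ℤ) j = 1 := by
          apply Finset.prod_eq_one
          intro j _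
          rw [Pi.zero_apply, zpow_zero]
        have h5 : u = pq x p := pq_congr hx hp0 hu
        have h6 : cst K (Units.mk0 _ hl) = pq x (C p.leadingCoeff) := by
          rw [← pq_C hx (Units.mk0 _ hl), Units.val_mk0]
        rw [h4, mul_one, Lpx_pq_one hx, div_one, h6, ← pq_mul hx (C_ne_zero.2 hl) hm.ne_zero, h3, h5]
  · refine ⟨1, 0, 1, 1, monic_one, monic_one, Lpx_av_one, Lpx_av_one, ?_⟩
    have h4 : ∏ j, pz x (P j) ^ (0 : Fin (r + 1) → ℤ) j = 1 := by
      apply Finset.prod_eq_one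
      intro j _
      rw [Pi.zero_apply, zpow_zero]
    rw [h4, Lpx_cst_one, div_self', mul_one, mul_one]
  · rintro u v _ _ ⟨q, m, a, b, ha, hb, ha', hb', rfl⟩ ⟨q', m', a', b', ga, gb, ga', gb', rfl⟩
    refine ⟨q * q', m + m', a * a', b * b', ha.mul ga, hb.mul gb, Lpx_av_mul ha' ga',
      Lpx_av_mul hb' gb', ?_⟩
    have h4 : ∏ j, pz x (P j) ^ (m + m') j = (∏ j, pz x (P j) ^ m j) * ∏ j, pz x (P j) ^ m' j := by
      rw [← Finset.prod_mul_distrib]
      apply Finset.prod_congr rfl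
      intro j _
      rw [Pi.add_apply, zpow_add]
    rw [h4, Lpx_cst_mul, pq_mul hx ha.ne_zero ga.ne_zero, pq_mul hx hb.ne_zero gb.ne_zero,
      mul_div_mul_comm, mul_mul_mul_comm (cst K q) (cst K q'),
      mul_mul_mul_comm (cst K q * _) (cst K q' * _)]
  · rintro u _ ⟨q, m, a, b, ha, hb, ha', hb', rfl⟩
    refine ⟨q⁻¹, -m, b, a, hb, ha, hb', ha', ?_⟩
    have h4 : ∏ j, pz x (P j) ^ (-m) j = (∏ j, pz x (P j) ^ m j)⁻¹ := by
      rw [← Finset.prod_inv_distrib]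
      apply Finset.prod_congr rfl
      intro j _
      rw [Pi.neg_apply, zpow_neg]
    rw [h4, Lpx_cst_inv, mul_inv, mul_inv, inv_div]

private lemma Lpx_quot (hx : Transcendental ℚ x) (hP : ∀ i, P i ≠ 0) {h : Kˣ}
    (hh : h ∈ xGroup P f ε x) :
    ∃ p q : ℚ[X], p ≠ 0 ∧ q ≠ 0 ∧ h = pq x p / pq x q := by
  obtain ⟨q, m, a, b, ha, hb, -, -, rfl⟩ := xGroup_quot hx hP hh
  obtain ⟨a', b', ha', hb', h1⟩ := Lpx_quot_prod hx Finset.univ (fun i => pz x (P i) ^ m i)
    (fun i => Lpx_quot_zpow hx (map_ne (hP i)) (m i))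
  refine ⟨C (q : ℚ) * a' * a, b' * b, mul_ne_zero (mul_ne_zero (C_ne_zero.2 q.ne_zero) ha')
    ha.ne_zero, mul_ne_zero hb' hb.ne_zero, ?_⟩
  rw [h1, pq_mul hx (mul_ne_zero (C_ne_zero.2 q.ne_zero) ha') ha.ne_zero,
    pq_mul hx (C_ne_zero.2 q.ne_zero) ha', pq_mul hx hb' hb.ne_zero, pq_C hx, mul_div_mul_comm,
    mul_div_assoc]

theorem span_le_LP (hx : Transcendental ℚ x) (hP : ∀ i, P i ≠ 0) :
    Submodule.span ℚ {t : KMQ K 2 | ∃ a ∈ xGroup P f ε x, ∃ b ∈ xGroup P f ε x, t = sy a b} ≤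
      LP x := by
  rw [Submodule.span_le]
  rintro t ⟨u, hu, v, hv, rfl⟩
  obtain ⟨p, q, hp, hq, h1⟩ := Lpx_quot hx hP hu
  obtain ⟨p', q', hp', hq', h2⟩ := Lpx_quot hx hP hv
  rw [h1, h2, sy_div_left, sy_div_right, sy_div_right]
  have h3 : ∀ a b : ℚ[X], a ≠ 0 → b ≠ 0 → sy (pq x a) (pq x b) ∈ LP x :=
    fun a b ha hb => Submodule.subset_span ⟨a, b, ha, hb, rfl⟩
  exact Submodule.sub_mem _ (Submodule.sub_mem _ (h3 _ _ hp hp') (h3 _ _ hp hq'))
    (Submodule.sub_mem _ (h3 _ _ hq hp') (h3 _ _ hq hq'))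

end HYI
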