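import Mathlib
import Pool.Agent.HYI.Base
import Pool.Agent.HYI.Api
import Pool.Agent.HYI.Lpx
import Pool.Agent.ISI.TamB

/-! MODULE HYI-Cyc (the polynomials which avoid the cyclotomic points do not occur).

PLAN. `xGroup_quot`: `h = cst q ∏ pz (P i)^(m i) * (pq x a / pq x b)`, `a`, `b` monic. Dividing both by their gcd
(`a = g a'`, `b = g b'` monic, `IsCoprime a' b'`; divisors of polynomials with `Avoids` have `Avoids`) we may
assume that `a`, `b` are coprime. Claim: `a = 1` (and `b = 1` in the same way, or by applying the claim to `h⁻¹`).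
Otherwise `a` has a complex zero `a₀` (degree > 0), `b(a₀) ≠ 0` (coprime), and `b₀` a root of
`T² - f(a₀) T + ε` (`IsAlgClosed`). `(P i)(a₀) ≠ 0`: otherwise `f(a₀) = κ` (as `e i ≠ 0`), so
`b₀² - κ b₀ + ε = 0`, and then `b₀ ^ 12 = 1` (all the cases of `hκ`), contradicting `Avoids`.
`exists_place` for `y = x`, `z = v`, `A = f.map`, `B = C ε`, the point `(a₀, b₀)` and `p = a` gives `O`, `ρ`.
By `exists_tameT O` (ISI/TamB): `τ (sy h v) = ord h • χ v` (`v` is a unit of `O`: `b₀ ≠ 0` because `ε ≠ 0`,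
so `ρ v ≠ 0`), `τ (sy h v) = 0` because `sy h v ∈ integralM K 2 ≤ unrM O 2`, and `ord h = ord (a(x)) > 0`, the
other factors being units of `O` (`ρ ≠ 0`; `cst q`: nonzero rational numbers of `O` have `ρ = q`).
So `χ v = 0`, hence `O.valuation (v^m - 1) < 1` for some `m ≠ 0`, i.e. `ρ (v^m - 1) = 0`, `b₀^m = 1`:
contradiction with `Avoids`. (`IsOrd` API: `Helper11/Tame.lean`, `lt_iff`, `le_iff`, `mul`, ...) -/

namespace HYI

open Polynomial Pool.Agent.Helper11 Pool.Agent.ISI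

private lemma cyc_pow12 {κ ε : ℤ} (hκ : (ε = 1 ∧ |κ| ≤ 2) ∨ (ε = -1 ∧ κ = 0)) {b : ℂ}
    (h : b ^ 2 - κ * b + ε = 0) : b ^ 12 = 1 := by
  rcases hκ with ⟨h1, h2⟩ | ⟨h1, h2⟩
  · subst h1
    obtain ⟨h3, h4⟩ := abs_le.1 h2
    have h5 : κ = -2 ∨ κ = -1 ∨ κ = 0 ∨ κ = 1 ∨ κ = 2 := by omega
    rcases h5 with rfl | rfl | rfl | rfl | rfl
    · push_cast at h
      have h6 : (b + 1) ^ 2 = 0 := by linear_combination h
      have h7 : b = -1 := by
        have := pow_eq_zero_iff (two_ne_zero) |>.1 h6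
        linear_combination this
      rw [h7]
      norm_num
    · push_cast at h
      have h6 : b ^ 3 = 1 := by linear_combination (b - 1) * h
      calc b ^ 12 = (b ^ 3) ^ 4 := by ring
        _ = 1 := by rw [h6]; norm_num
    · push_cast at h
      have h6 : b ^ 2 = -1 := by linear_combination h
      calc b ^ 12 = (b ^ 2) ^ 6 := by ring
        _ = 1 := by rw [h6]; norm_num
    · push_cast at h
      have h6 : b ^ 3 = -1 := by linear_combination (b + 1) * h
      calc b ^ 12 = (b ^ 3) ^ 4 := by ring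
        _ = 1 := by rw [h6]; norm_num
    · push_cast at h
      have h6 : (b - 1) ^ 2 = 0 := by linear_combination h
      have h7 : b = 1 := by
        have := pow_eq_zero_iff (two_ne_zero) |>.1 h6
        linear_combination this
      rw [h7]
      norm_num
  · subst h1
    subst h2
    push_cast at h
    have h6 : b ^ 2 = 1 := by linear_combination h
    calc b ^ 12 = (b ^ 2) ^ 6 := by ring
      _ = 1 := by rw [h6]; norm_num

private lemma cyc_quad (f ε : ℂ) : ∃ b : ℂ, b ^ 2 - f * b + ε = 0 := by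
  obtain ⟨s, hs⟩ := IsAlgClosed.exists_pow_nat_eq (f ^ 2 / 4 - ε) (n := 2) (by norm_num)
  exact ⟨f / 2 + s, by linear_combination hs⟩

private lemma cyc_eval {K : Type} [Field K] [CharZero K] {x : K} (O : ValuationSubring K)
    (ρ : O →+* ℂ) (hq : ∀ q : ℚ, (q : K) ∈ O) (h1 : x ∈ O) {a : ℂ} (ha : ρ ⟨x, h1⟩ = a)
    (p : ℚ[X]) : ∃ h : aeval x p ∈ O, ρ ⟨aeval x p, h⟩ = aeval a p := by
  induction p using Polynomial.induction_on' with
  | add p q hp hq' =>
    obtain ⟨h3, h4⟩ := hp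
    obtain ⟨h5, h6⟩ := hq'
    refine ⟨by rw [map_add]; exact add_mem h3 h5, ?_⟩
    have e : (⟨aeval x (p + q), by rw [map_add]; exact add_mem h3 h5⟩ : O) =
        ⟨aeval x p, h3⟩ + ⟨aeval x q, h5⟩ := by
      apply Subtype.ext
      simp
    rw [e, map_add, map_add, h4, h6]
  | monomial n q =>
    have h3 : aeval x (monomial n q) = (q : K) * x ^ n := by
      rw [aeval_monomial, eq_ratCast]
    have h4 : aeval a (monomial n q) = (q : ℂ) * a ^ n := by
      rw [aeval_monomial, eq_ratCast]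
    let ι : ℚ →+* O := (algebraMap ℚ K).codRestrict O.toSubring fun q => by
      rw [eq_ratCast]
      exact hq q
    have h5 : ρ (ι q) = (q : ℂ) := eq_ratCast (ρ.comp ι) q
    have h6 : aeval x (monomial n q) ∈ O := by
      rw [h3]
      exact mul_mem (hq q) (pow_mem h1 n)
    refine ⟨h6, ?_⟩
    have e : (⟨aeval x (monomial n q), h6⟩ : O) = ι q * ⟨x, h1⟩ ^ n := by
      apply Subtype.ext
      refine h3.trans ?_
      change (q : K) * x ^ n = (algebraMap ℚ K q) * x ^ n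
      rw [eq_ratCast]
    rw [e, map_mul, map_pow, h5, ha, h4]

private lemma cyc_key {r : ℕ} {P : Fin (r + 1) → ℤ[X]} {e : Fin (r + 1) → ℕ} {c κ ε : ℤ} {K : Type}
    [Field K] [CharZero K] {x : K} {v : Kˣ} (H : Cur P e c κ ε x v) {h : Kˣ}
    (hi : sy h v ∈ integralM K 2) {q : ℚˣ} {m : Fin (r + 1) → ℤ} {a b : ℚ[X]} (ha : a ≠ 0)
    (hb : b ≠ 0) (hcop : IsCoprime a b) (hA : Avoids (fp P e c κ) ε a)
    (hh : h = cst K q * (∏ i, pz x (P i) ^ m i) * (pq x a / pq x b)) : a.natDegree = 0 := by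
  by_contra hdeg
  obtain ⟨a₀, ha₀⟩ := IsAlgClosed.exists_aeval_eq_zero ℂ a
    (fun h0 => hdeg (natDegree_eq_of_degree_eq_some h0))
  obtain ⟨b₀, hb₀⟩ := cyc_quad (aeval a₀ (fp P e c κ)) (ε : ℂ)
  have hav := hA a₀ b₀ ha₀ hb₀
  have hε : (ε : ℂ) ≠ 0 := by
    rcases H.hε with h0 | h0 <;> rw [h0] <;> norm_num
  have hb₀0 : b₀ ≠ 0 := by
    intro h0
    rw [h0] at hb₀
    apply hε
    simpa using hb₀
  have hPi : ∀ i, aeval a₀ (P i) ≠ 0 := by
    intro i h0
    have h1 : aeval a₀ (fp P e c κ) = (κ : ℂ) := by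
      rw [aeval_fp, Finset.prod_eq_zero (Finset.mem_univ i) (by rw [h0, zero_pow (H.he i)])]
      ring
    rw [h1] at hb₀
    exact hav 12 (by norm_num) (cyc_pow12 H.hκ hb₀)
  have hba : aeval a₀ b ≠ 0 := by
    intro h0
    obtain ⟨s, t, hst⟩ := hcop
    have h1 := congrArg (aeval a₀) hst
    rw [map_add, map_mul, map_mul, ha₀, h0] at h1
    simp at h1
  obtain ⟨O, ρ, hdvr, hρ, hq, ⟨hx, hρx⟩, hv, hρv⟩ := H.place a₀ b₀ a ha ha₀ hb₀
  haveI : IsDiscreteValuationRing O := hdvr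
  obtain ⟨V, _, _, χ, τ, ord, p, hO, hτ, hu, hχ⟩ := exists_tameT O
  have hval1 : ∀ p : ℚ[X], p ≠ 0 → aeval a₀ p ≠ 0 → ord (pq x p) = 0 := by
    intro p hp h0
    obtain ⟨h1, h2⟩ := cyc_eval O ρ hq hx hρx p
    rw [← hO.eq_one_iff, pq_val H.hx hp]
    refine le_antisymm ((O.valuation_le_one_iff _).2 h1) (not_lt.1 fun h3 => h0 ?_)
    rw [← h2]
    exact (hρ _).2 h3
  have hval2 : 0 < ord (pq x a) := by
    obtain ⟨h1, h2⟩ := cyc_eval O ρ hq hx hρx a
    rw [← hO.lt_one_iff, pq_val H.hx ha]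
    exact (hρ ⟨_, h1⟩).1 (by rw [h2, ha₀])
  have hvU : v ∈ O.unitGroup := by
    rw [O.mem_unitGroup_iff]
    refine le_antisymm ((O.valuation_le_one_iff _).2 hv) (not_lt.1 fun h3 => hb₀0 ?_)
    rw [← hρv]
    exact (hρ _).2 h3
  have hordh : ord h = ord (pq x a) := by
    rw [hh, hO.mul, hO.mul, hO.div, hO.prod, hval1 b hb hba]
    have h1 : ord (cst K q) = 0 := by
      rw [← pq_C H.hx q]
      refine hval1 _ (C_ne_zero.2 q.ne_zero) ?_
      rw [aeval_C, eq_ratCast]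
      exact_mod_cast q.ne_zero
    have h2 : ∑ i, ord (pz x (P i) ^ m i) = 0 := by
      refine Finset.sum_eq_zero fun i _ => ?_
      rw [hO.zpow]
      have h3 : ord (pz x (P i)) = 0 := by
        refine hval1 _ (map_ne (H.hm i).ne_zero) ?_
        rw [aeval_map]
        exact hPi i
      rw [h3, mul_zero]
    rw [h1, h2]
    ring
  have h1 : τ (sy h v) = 0 := by
    refine hu _ ?_
    have h2 := hi
    unfold integralM at h2
    rw [Submodule.mem_iInf] at h2
    have h3 := h2 O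
    rw [Submodule.mem_iInf] at h3
    exact h3 hdvr
  rw [hτ h v hvU, hordh] at h1
  have h2 : χ v = 0 := by
    rcases smul_eq_zero.1 h1 with h3 | h3
    · exfalso
      have : (ord (pq x a)) = 0 := by exact_mod_cast h3
      omega
    · exact h3
  obtain ⟨n, hn, hn'⟩ := hχ v hvU h2
  have h3 : ρ (⟨v, hv⟩ ^ n - 1) = 0 := (hρ _).2 (by simpa using hn')
  rw [map_sub, map_pow, hρv, map_one, sub_eq_zero] at h3
  exact hav n hn h3

theorem cusp_only {r : ℕ} {P : Fin (r + 1) → ℤ[X]} {e : Fin (r + 1) → ℕ} {c κ ε : ℤ} {K : Type}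
    [Field K] [CharZero K] {x : K} {v : Kˣ} (H : Cur P e c κ ε x v) {h : Kˣ}
    (hh : h ∈ xGroup P (fp P e c κ) ε x) (hi : sy h v ∈ integralM K 2) :
    ∃ (q : ℚˣ) (m : Fin (r + 1) → ℤ), h = cst K q * ∏ i, pz x (P i) ^ m i := by
  obtain ⟨q, m, a, b, ha, hb, hA, hB, hq⟩ := xGroup_quot H.hx (fun i => (H.hm i).ne_zero) hh
  have ha0 := ha.ne_zero
  have hb0 := hb.ne_zero
  have hg0 : EuclideanDomain.gcd a b ≠ 0 := by
    intro h0
    exact ha0 (EuclideanDomain.gcd_eq_zero_iff.1 h0).1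
  obtain ⟨a', ha'⟩ := EuclideanDomain.gcd_dvd_left a b
  obtain ⟨b', hb'⟩ := EuclideanDomain.gcd_dvd_right a b
  set g := EuclideanDomain.gcd a b with hg
  have ha'0 : a' ≠ 0 := by
    rintro rfl
    exact ha0 (by rw [ha', mul_zero])
  have hb'0 : b' ≠ 0 := by
    rintro rfl
    exact hb0 (by rw [hb', mul_zero])
  have hcop : IsCoprime a' b' := by
    have h1 : g = a * EuclideanDomain.gcdA a b + b * EuclideanDomain.gcdB a b :=
      EuclideanDomain.gcd_eq_gcd_ab a b
    refine ⟨EuclideanDomain.gcdA a b, EuclideanDomain.gcdB a b, ?_⟩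
    apply mul_left_cancel₀ hg0
    rw [mul_one]
    calc g * (EuclideanDomain.gcdA a b * a' + EuclideanDomain.gcdB a b * b') =
        (g * a') * EuclideanDomain.gcdA a b + (g * b') * EuclideanDomain.gcdB a b := by ring
      _ = g := by rw [← ha', ← hb', ← h1]
  have hA' : Avoids (fp P e c κ) ε a' := fun s t hs ht n hn =>
    hA s t (by rw [ha', map_mul, hs, mul_zero]) ht n hn
  have hB' : Avoids (fp P e c κ) ε b' := fun s t hs ht n hn =>
    hB s t (by rw [hb', map_mul, hs, mul_zero]) ht n hn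
  have hquot : pq x a / pq x b = pq x a' / pq x b' := by
    rw [ha', hb', pq_mul H.hx hg0 ha'0, pq_mul H.hx hg0 hb'0, mul_div_mul_left_eq_div]
  have hd1 : a'.natDegree = 0 := by
    refine cyc_key H hi ha'0 hb'0 hcop hA' (q := q) (m := m) ?_
    rw [hq, hquot]
  have hd2 : b'.natDegree = 0 := by
    refine cyc_key H (h := h⁻¹) ?_ hb'0 ha'0 hcop.symm hB' (q := q⁻¹) (m := fun i => - m i) ?_
    · rw [sy_anti, sy_inv_right, neg_neg, sy_anti]
      exact Submodule.neg_mem _ hi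
    · rw [hq, hquot]
      simp only [zpow_neg, Finset.prod_inv_distrib, mul_inv, inv_div]
      congr 2
  obtain ⟨α, hα⟩ := natDegree_eq_zero.1 hd1
  obtain ⟨β, hβ⟩ := natDegree_eq_zero.1 hd2
  have hα0 : α ≠ 0 := by
    rintro rfl
    exact ha'0 (by rw [← hα, C_0])
  have hβ0 : β ≠ 0 := by
    rintro rfl
    exact hb'0 (by rw [← hβ, C_0])
  refine ⟨q * (Units.mk0 α hα0 / Units.mk0 β hβ0), m, ?_⟩
  have e1 : pq x a' = cst K (Units.mk0 α hα0) := by
    rw [← hα]
    exact pq_C H.hx (Units.mk0 α hα0)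
  have e2 : pq x b' = cst K (Units.mk0 β hβ0) := by
    rw [← hβ]
    exact pq_C H.hx (Units.mk0 β hβ0)
  rw [hq, hquot, e1, e2]
  have e3 : cst K (q * (Units.mk0 α hα0 / Units.mk0 β hβ0)) =
      cst K q * (cst K (Units.mk0 α hα0) / cst K (Units.mk0 β hβ0)) := by
    unfold cst
    rw [map_mul, _root_.map_div]
  rw [e3]
  exact mul_right_comm _ _ _

end HYI
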