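import Mathlib
import Pool.Agent.HYI.Base
import Pool.Agent.HYI.Api
import Pool.Agent.ISI.TamB

/-! MODULE HYI-Inf (the place at infinity).

Let `n i = (P i).natDegree`, `N = ∑ e i * n i = deg f`, `a = ∑ m i * n i`. If
`h = cst q ∏ (P i)(x)^(m i)` and `sy h v` is integral, then `c^(2a) = q^(2N)`.

PLAN. `t = x⁻¹`, `s = v * t^N`. Then `s² - F(t) s + ε t^(2N) = 0` with `F ∈ ℚ[X]`,
`F(t) = t^N f(x)`, `F = C c * ∏ (reverse (P i))^(e i) + C κ * X^N` (`P i` monic: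
`(P i)(x) = x^(n i) R_i(t)`, `R_i = (P i).reverse`, `R_i(0) = 1`; `eval₂_reverse_mul_pow`). `t` is
transcendental, `ℚ(t, s) = K`, `s ∉ ℚ(t) = ℚ(x)` (`not_mem`, Invol.lean). `exists_place` at the point
`(t, s) = (0, c)` (`p = X`): `O`, `ρ` with `ρ t = 0`, `ρ s = c`; so `s` is a unit of `O`, and
`R_i(t)` has `ρ = 1`. `h = x^a h'`, `v = x^N s`, with `h' = cst q ∏ R_i(t)^(m i)`, `ρ h' = q`.
`sy h v = a • sy x s - N • sy x h' + sy h' s` (`sy x x = 0`, bilinearity). By `exists_tameT O`: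
`0 = τ (sy h v) = ord x • (a • χ s - N • χ h')` (`τ (sy h' s) = ord h' • χ s = 0`), `ord x ≠ 0`
(`valuation t < 1`). Hence `χ (s^a / h'^N) = 0`; `χ` is additive on units: to see this use `τ` itself,
`τ (sy x (s^a / h'^N)) = a τ (sy x s) - N τ (sy x h') = 0` and `τ (sy x u) = ord x • χ u` for the unit
`u = s^a / h'^N`. So `χ u = 0` and `u^m ≡ 1`: apply `ρ`: `(c^a / q^N)^m = 1`, so
`(c^a / q^N)^2 = 1` (rational number, `m ≠ 0`; `ρ` of an integral power of a unit is the power of `ρ`). -/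

namespace HYI

open Polynomial Pool.Agent.Helper11 Pool.Agent.ISI

private lemma inf_rev {S : Type*} [Field S] {x : S} (hx : x ≠ 0) (p : ℤ[X]) :
    aeval x p = x ^ p.natDegree * aeval x⁻¹ p.reverse := by
  let _ : Invertible x := invertibleOfNonzero hx
  have h := eval₂_reverse_mul_pow (algebraMap ℤ S) x p
  rw [invOf_eq_inv] at h
  rw [aeval_def, aeval_def, ← h, mul_comm]

private lemma inf_transc {K : Type} [Field K] [CharZero K] {x : K} (hx : Transcendental ℚ x) :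
    Transcendental ℚ x⁻¹ := by
  rw [Transcendental, IsAlgebraic.inv_iff]
  exact hx

/-- `F` -/
private noncomputable def inf_F {r : ℕ} (P : Fin (r + 1) → ℤ[X]) (e : Fin (r + 1) → ℕ)
    (c κ : ℤ) : ℚ[X] :=
  (C c * ∏ i, (P i).reverse ^ e i + C κ * X ^ (∑ i, e i * (P i).natDegree)).map
    (Int.castRingHom ℚ)

private lemma inf_F_aeval {r : ℕ} {P : Fin (r + 1) → ℤ[X]} {e : Fin (r + 1) → ℕ} {c κ : ℤ}
    {S : Type*} [Field S] [CharZero S] (t : S) :
    aeval t (inf_F P e c κ) = c * ∏ i, aeval t (P i).reverse ^ e i +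
      κ * t ^ (∑ i, e i * (P i).natDegree) := by
  unfold inf_F
  have h : (Int.castRingHom ℚ) = algebraMap ℤ ℚ := rfl
  rw [h, aeval_map_algebraMap]
  simp

section aux

variable {r : ℕ} {P : Fin (r + 1) → ℤ[X]} {e : Fin (r + 1) → ℕ} {c κ ε : ℤ} {K : Type}
  [Field K] [CharZero K] {x : K} {v : Kˣ}

private lemma inf_x0 (hx : Transcendental ℚ x) : x ≠ 0 := by
  rintro rfl
  exact hx isAlgebraic_zero

private lemma inf_F_x (hx : x ≠ 0) :
    aeval x⁻¹ (inf_F P e c κ) = x⁻¹ ^ (∑ i, e i * (P i).natDegree) * aeval x (fp P e c κ) := by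
  rw [inf_F_aeval, aeval_fp]
  have h1 : ∏ i, aeval x (P i) ^ e i =
      x ^ (∑ i, e i * (P i).natDegree) * ∏ i, aeval x⁻¹ (P i).reverse ^ e i := by
    rw [← Finset.prod_pow_eq_pow_sum, ← Finset.prod_mul_distrib]
    refine Finset.prod_congr rfl fun i _ => ?_
    rw [inf_rev hx (P i), mul_pow, ← pow_mul, mul_comm (P i).natDegree]
  rw [h1]
  have h2 : x⁻¹ ^ (∑ i, e i * (P i).natDegree) * x ^ (∑ i, e i * (P i).natDegree) = 1 := by
    rw [← mul_pow, inv_mul_cancel₀ hx, one_pow]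
  linear_combination (-(c : K) * ∏ i, aeval x⁻¹ (P i).reverse ^ e i) * h2

private lemma inf_rev0 (H : Cur P e c κ ε x v) {S : Type*} [Field S] (i : Fin (r + 1)) :
    aeval (0 : S) (P i).reverse = 1 := by
  rw [← coeff_zero_eq_aeval_zero', coeff_zero_reverse, (H.hm i).leadingCoeff, map_one]

/-- the place -/
private theorem inf_place (H : Cur P e c κ ε x v) :
    ∃ (O : ValuationSubring K) (ρ : O →+* ℂ), IsDiscreteValuationRing O ∧
      (∀ t : O, ρ t = 0 ↔ O.valuation (t : K) < 1) ∧ (∀ q : ℚ, (q : K) ∈ O) ∧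
      (∃ h1 : x⁻¹ ∈ O, ρ ⟨x⁻¹, h1⟩ = 0) ∧
      ∃ h2 : (v : K) * x⁻¹ ^ (∑ i, e i * (P i).natDegree) ∈ O, ρ ⟨_, h2⟩ = c := by
  have hx0 := inf_x0 H.hx
  set N := ∑ i, e i * (P i).natDegree with hN
  have hNpos : 0 < N := H.sum_pos
  have hvx : (v : K) = (v : K) * x⁻¹ ^ N * x⁻¹⁻¹ ^ N := by
    rw [inv_inv, mul_assoc, ← mul_pow, inv_mul_cancel₀ hx0, one_pow, mul_one]
  refine exists_place K x⁻¹ ((v : K) * x⁻¹ ^ N) (inf_transc H.hx) ?_ (inf_F P e c κ)
    (C (ε : ℚ) * X ^ (2 * N)) ?_ ?_ 0 c X X_ne_zero (by simp) ?_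
  · rw [eq_top_iff, ← H.hK, IntermediateField.adjoin_le_iff]
    have h1 : x⁻¹ ∈ IntermediateField.adjoin ℚ {x⁻¹, (v : K) * x⁻¹ ^ N} :=
      IntermediateField.subset_adjoin _ _ (by simp)
    have h2 : (v : K) * x⁻¹ ^ N ∈ IntermediateField.adjoin ℚ {x⁻¹, (v : K) * x⁻¹ ^ N} :=
      IntermediateField.subset_adjoin _ _ (by simp)
    rintro u (rfl | hu)
    · have h3 := inv_mem h1
      rwa [inv_inv] at h3
    · rw [Set.mem_singleton_iff] at hu
      have h4 := mul_mem h2 (pow_mem (inv_mem h1) N)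
      rw [← hvx] at h4
      rwa [hu]
  · rw [inf_F_x hx0, ← hN, map_mul, map_pow, aeval_X, aeval_C, eq_ratCast, Rat.cast_intCast]
    linear_combination (x⁻¹ ^ N) ^ 2 * H.h
  · intro hmem
    apply H.v_not_mem
    have h1 : x ∈ IntermediateField.adjoin ℚ {x} := IntermediateField.mem_adjoin_simple_self ℚ x
    have h3 : IntermediateField.adjoin ℚ {x⁻¹} ≤ IntermediateField.adjoin ℚ {x} := by
      rw [IntermediateField.adjoin_le_iff, Set.singleton_subset_iff]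
      exact inv_mem h1
    rw [hvx]
    exact mul_mem (h3 hmem) (pow_mem (inv_mem (h3 (IntermediateField.mem_adjoin_simple_self ℚ _))) _)
  · rw [inf_F_aeval, ← hN, map_mul, map_pow, aeval_X, zero_pow hNpos.ne', zero_pow (by omega)]
    have h4 : ∏ i, aeval (0 : ℂ) (P i).reverse ^ e i = 1 :=
      Finset.prod_eq_one fun i _ => by rw [inf_rev0 H i, one_pow]
    rw [h4]
    ring

private lemma inf_rat {O : ValuationSubring K} (ρ : O →+* ℂ) (hq : ∀ q : ℚ, (q : K) ∈ O) (q : ℚ) :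
    ρ ⟨q, hq q⟩ = q := by
  let f : ℚ →+* O :=
    { toFun := fun r => ⟨(r : K), hq r⟩
      map_one' := Subtype.ext Rat.cast_one
      map_mul' := fun x y => Subtype.ext (Rat.cast_mul x y)
      map_zero' := Subtype.ext Rat.cast_zero
      map_add' := fun x y => Subtype.ext (Rat.cast_add x y) }
  exact eq_ratCast (ρ.comp f) q

omit [CharZero K] in
private lemma inf_aeval {O : ValuationSubring K} (ρ : O →+* ℂ) {t : K} (ht : t ∈ O) (p : ℤ[X]) :
    ∃ h : aeval t p ∈ O, ρ ⟨aeval t p, h⟩ = aeval (ρ ⟨t, ht⟩) p := by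
  have h1 : ((aeval (⟨t, ht⟩ : O) p : O) : K) = aeval t p := by
    have h2 := hom_eval₂ p (algebraMap ℤ O) O.subtype ⟨t, ht⟩
    rw [Subsingleton.elim (O.subtype.comp (algebraMap ℤ O)) (algebraMap ℤ K)] at h2
    exact h2
  have h3 : ρ (aeval (⟨t, ht⟩ : O) p) = aeval (ρ ⟨t, ht⟩) p := by
    have h2 := hom_eval₂ p (algebraMap ℤ O) ρ ⟨t, ht⟩
    rw [Subsingleton.elim (ρ.comp (algebraMap ℤ O)) (algebraMap ℤ ℂ)] at h2
    exact h2
  refine ⟨h1 ▸ (aeval (⟨t, ht⟩ : O) p).2, ?_⟩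
  rw [← h3]
  congr 1
  exact Subtype.ext h1.symm

/-- the value of a unit of the valuation ring -/
private noncomputable def inf_g {O : ValuationSubring K} (ρ : O →+* ℂ) : O.unitGroup →* ℂˣ :=
  (Units.map (ρ : O →* ℂ)).comp O.unitGroupMulEquiv.toMonoidHom

omit [CharZero K] in
private lemma inf_g_val {O : ValuationSubring K} (ρ : O →+* ℂ) (u : O.unitGroup)
    (h : ((u : Kˣ) : K) ∈ O) : (inf_g ρ u : ℂ) = ρ ⟨_, h⟩ := rfl

omit [CharZero K] in
private lemma inf_unit {O : ValuationSubring K} {ρ : O →+* ℂ}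
    (hρ : ∀ t : O, ρ t = 0 ↔ O.valuation (t : K) < 1) {u : Kˣ} (h : (u : K) ∈ O)
    (h0 : ρ ⟨u, h⟩ ≠ 0) : u ∈ O.unitGroup := by
  rw [O.mem_unitGroup_iff]
  rw [Ne, hρ, not_lt] at h0
  exact le_antisymm (O.valuation_le_one ⟨u, h⟩) h0

/-- a rational number with a power equal to `1` -/
private lemma inf_sq {y : ℚ} {k : ℕ} (hk : k ≠ 0) (h : y ^ k = 1) : y ^ 2 = 1 := by
  have h1 : |y| ^ k = 1 := by rw [← abs_pow, h, abs_one]
  have h2 : |y| = 1 := (pow_eq_one_iff_of_nonneg (abs_nonneg y) hk).1 h1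
  rw [← sq_abs, h2, one_pow]

omit [CharZero K] in
private lemma inf_zpow_sum (u : Kˣ) {ι : Type*} (s : Finset ι) (f : ι → ℤ) :
    u ^ (∑ i ∈ s, f i) = ∏ i ∈ s, u ^ f i := by
  classical
  induction s using Finset.induction_on with
  | empty => simp
  | insert i s hi ih => rw [Finset.sum_insert hi, Finset.prod_insert hi, zpow_add, ih]

omit [CharZero K] in
private lemma inf_sym (y s h : Kˣ) (a : ℤ) (N : ℕ) : sy (y ^ a * h) (y ^ (N : ℤ) * s) =
    (a : ℚ) • sy y s - (N : ℚ) • sy y h + sy h s := by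
  rw [sy_mul_left, sy_mul_right, sy_mul_right, sy_zpow_left, sy_zpow_right, sy_self,
    sy_zpow_left, sy_zpow_right, sy_anti h y, smul_zero, smul_zero, Int.cast_natCast, smul_neg]
  abel

omit [CharZero K] in
private lemma inf_mem {O : ValuationSubring K} {u : Kˣ} (hu : u ∈ O.unitGroup) : (u : K) ∈ O := by
  rw [← ValuationSubring.valuation_le_one_iff]
  exact (((O.mem_unitGroup_iff u).1 hu)).le

end aux

theorem inf_rel {r : ℕ} {P : Fin (r + 1) → ℤ[X]} {e : Fin (r + 1) → ℕ} {c κ ε : ℤ} {K : Type}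
    [Field K] [CharZero K] {x : K} {v : Kˣ} (H : Cur P e c κ ε x v) {q : ℚˣ}
    {m : Fin (r + 1) → ℤ}
    (hi : sy (cst K q * ∏ i, pz x (P i) ^ m i) v ∈ integralM K 2) :
    ((c : ℚ) ^ (∑ i, m i * (P i).natDegree : ℤ)) ^ 2 =
      ((q : ℚ) ^ (∑ i, e i * (P i).natDegree)) ^ 2 := by
  have hx0 := inf_x0 H.hx
  have hNpos := H.sum_pos
  have hpl := inf_place H
  set N := ∑ i, e i * (P i).natDegree with hN
  set a : ℤ := ∑ i, m i * (P i).natDegree with ha
  obtain ⟨O, ρ, hdvr, hρ, hrat, ⟨ht, hρt⟩, hs, hρs⟩ := hpl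
  have hc0 : (c : ℂ) ≠ 0 := Int.cast_ne_zero.2 H.hc
  have hcq : (c : ℚ) ≠ 0 := Int.cast_ne_zero.2 H.hc
  -- the units
  set xU : Kˣ := Units.mk0 x hx0 with hxU
  obtain ⟨sU, hsv, hv⟩ : ∃ sU : Kˣ, (sU : K) = (v : K) * x⁻¹ ^ N ∧ v = xU ^ (N : ℤ) * sU := by
    refine ⟨v * xU⁻¹ ^ N, ?_, ?_⟩
    · rw [Units.val_mul, Units.val_pow_eq_pow_val, Units.val_inv_eq_inv_val, hxU, Units.val_mk0]
    · rw [zpow_natCast, mul_left_comm, ← mul_pow, mul_inv_cancel, one_pow, mul_one]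
  have hR : ∀ i, ∃ R : Kˣ, ∃ h : R ∈ O.unitGroup, inf_g ρ ⟨R, h⟩ = 1 ∧
      pz x (P i) = xU ^ ((P i).natDegree : ℤ) * R := by
    intro i
    obtain ⟨h1, h2⟩ := inf_aeval ρ ht (P i).reverse
    rw [hρt, inf_rev0 H i] at h2
    have h3 := pz_val H.hx (H.hm i).ne_zero
    have h4 : aeval x⁻¹ (P i).reverse ≠ 0 := by
      intro h5
      rw [inf_rev hx0, h5, mul_zero] at h3
      exact (pz x (P i)).ne_zero h3
    have h6 : ρ ⟨((Units.mk0 _ h4 : Kˣ) : K), h1⟩ = 1 := h2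
    have h7 : Units.mk0 _ h4 ∈ O.unitGroup := inf_unit hρ h1 (by rw [h6]; exact one_ne_zero)
    refine ⟨Units.mk0 _ h4, h7, ?_, ?_⟩
    · apply Units.ext
      rw [inf_g_val ρ _ h1, h6, Units.val_one]
    · apply Units.ext
      rw [h3, inf_rev hx0, Units.val_mul, zpow_natCast, Units.val_pow_eq_pow_val, hxU,
        Units.val_mk0, Units.val_mk0]
  choose R hRO hRg hRe using hR
  have hsO' : (sU : K) ∈ O := by
    rw [hsv]
    exact hs
  have hsρ : ρ ⟨(sU : K), hsO'⟩ = c := by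
    rw [← hρs]
    exact congrArg ρ (Subtype.ext hsv)
  have hqO' : (cst K q : K) ∈ O := by
    rw [cst_val]
    exact hrat q
  have hcv : ρ ⟨(cst K q : K), hqO'⟩ = ((q : ℚ) : ℂ) := by
    rw [← inf_rat ρ hrat]
    exact congrArg ρ (Subtype.ext (cst_val q))
  have hqO : cst K q ∈ O.unitGroup := by
    refine inf_unit hρ (by rw [cst_val]; exact hrat q) ?_
    rw [hcv]
    exact Rat.cast_ne_zero.2 q.ne_zero
  have hsO : sU ∈ O.unitGroup := by
    refine inf_unit hρ (by rw [hsv]; exact hs) ?_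
    rw [hsρ]
    exact hc0
  -- the unit part of h
  set h' : Kˣ := cst K q * ∏ i, R i ^ m i with hh'
  have hh'O : h' ∈ O.unitGroup := mul_mem hqO (prod_mem fun i _ => zpow_mem (hRO i) _)
  have hh : cst K q * ∏ i, pz x (P i) ^ m i = xU ^ a * h' := by
    have h1 : ∏ i, pz x (P i) ^ m i = xU ^ a * ∏ i, R i ^ m i := by
      rw [ha, inf_zpow_sum, ← Finset.prod_mul_distrib]
      refine Finset.prod_congr rfl fun i _ => ?_
      rw [hRe i, mul_zpow, ← zpow_mul, mul_comm (m i)]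
    rw [h1, hh', mul_left_comm]
  -- the tame symbol
  obtain ⟨V, _, _, χ, τ, ord, ϖ, hord, hτ, hz, htor⟩ := exists_tameT O
  have hz0 : τ (sy (cst K q * ∏ i, pz x (P i) ^ m i) v) = 0 := by
    refine hz _ ?_
    unfold integralM at hi
    rw [Submodule.mem_iInf] at hi
    have h1 := hi O
    rw [Submodule.mem_iInf] at h1
    exact h1 hdvr
  have hunr : τ (sy h' sU) = 0 := by
    refine hz _ (Submodule.subset_span ⟨![h', sU], ?_, rfl⟩)
    intro j
    fin_cases j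
    · exact hh'O
    · exact hsO
  have hordx : ord xU ≠ 0 := by
    intro h0
    have h1 := (hord.eq_one_iff xU).2 h0
    have h2 := (hρ ⟨x⁻¹, ht⟩).1 hρt
    rw [hxU, Units.val_mk0] at h1
    change O.valuation x⁻¹ < 1 at h2
    rw [map_inv₀, h1, inv_one] at h2
    exact lt_irrefl _ h2
  have hmain : (a : ℚ) • τ (sy xU sU) - (N : ℚ) • τ (sy xU h') = 0 := by
    rw [hh, hv, inf_sym, map_add, hunr, add_zero, map_sub, map_smul, map_smul] at hz0
    exact hz0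
  set u : Kˣ := sU ^ a * (h' ^ (N : ℤ))⁻¹ with hu
  have huO : u ∈ O.unitGroup := mul_mem (zpow_mem hsO _) (inv_mem (zpow_mem hh'O _))
  have hχ : χ u = 0 := by
    have h1 : τ (sy xU u) = 0 := by
      rw [hu, sy_mul_right, sy_inv_right, sy_zpow_right, sy_zpow_right, map_add, map_neg, map_smul,
        map_smul, ← sub_eq_add_neg, Int.cast_natCast]
      exact hmain
    rw [hτ xU u huO] at h1
    exact (smul_eq_zero.1 h1).resolve_left (Int.cast_ne_zero.2 hordx)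
  obtain ⟨k, hk, hval⟩ := htor u huO hχ
  -- the value of u
  have hgu : (inf_g ρ ⟨u, huO⟩ : ℂ) = (((c : ℚ) ^ a * ((q : ℚ) ^ N)⁻¹ : ℚ) : ℂ) := by
    have e1 : (⟨u, huO⟩ : O.unitGroup) = ⟨sU, hsO⟩ ^ a *
        ((⟨cst K q, hqO⟩ * ∏ i, ⟨R i, hRO i⟩ ^ m i) ^ N)⁻¹ := by
      apply Subtype.ext
      simp [hu, hh']
    have e2 : (inf_g ρ ⟨sU, hsO⟩ : ℂ) = c := hsρ
    have e3 : (inf_g ρ ⟨cst K q, hqO⟩ : ℂ) = (q : ℚ) := hcv
    rw [e1, map_mul, map_inv, map_pow, map_mul, map_prod, map_zpow]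
    simp only [map_zpow, hRg, one_zpow, Finset.prod_const_one, mul_one, Units.val_mul,
      Units.val_zpow_eq_zpow_val, Units.val_inv_eq_inv_val, Units.val_pow_eq_pow_val, e2, e3]
    push_cast
    rfl
  have hpow : ((c : ℚ) ^ a * ((q : ℚ) ^ N)⁻¹) ^ k = 1 := by
    have h1 : (inf_g ρ ⟨u, huO⟩ : ℂ) ^ k = 1 := by
      have h2 : ((u : K)) ∈ O := inf_mem huO
      rw [inf_g_val ρ _ h2, ← map_pow, ← sub_eq_zero, ← map_one ρ, ← map_sub, hρ]
      exact hval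
    rw [hgu] at h1
    exact_mod_cast h1
  have hsq := inf_sq hk hpow
  have hq0 : ((q : ℚ) ^ N) ≠ 0 := pow_ne_zero _ q.ne_zero
  rw [← div_eq_mul_inv, div_pow, div_eq_one_iff_eq (pow_ne_zero 2 hq0)] at hsq
  exact hsq

end HYI
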