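import Mathlib

/-! Linear algebra: `∑ m i • S i` is in the span of the `n 0 • S (i+1) - n (i+1) • S 0` if `∑ m i n i = 0`. -/

namespace HYI

theorem lin_mem {V : Type*} [AddCommGroup V] [Module ℚ V] {r : ℕ} (S : Fin (r + 1) → V)
    (n : Fin (r + 1) → ℚ) (h0 : n 0 ≠ 0) (m : Fin (r + 1) → ℚ) (hm : ∑ i, m i * n i = 0) :
    ∑ i, m i • S i ∈ Submodule.span ℚ (Set.range fun i : Fin r =>
      n 0 • S i.succ - n i.succ • S 0) := by
  have h1 : ∑ i, m i • S i = ∑ i : Fin r, (m i.succ / n 0) •
      (n 0 • S i.succ - n i.succ • S 0) := by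
    rw [Fin.sum_univ_succ] at hm ⊢
    have h2 : m 0 = - (∑ i : Fin r, m i.succ * n i.succ) / n 0 := by
      rw [eq_div_iff h0]
      linarith
    have h3 : ∀ i : Fin r, (m i.succ / n 0) • (n 0 • S i.succ - n i.succ • S 0) =
        m i.succ • S i.succ - (m i.succ * n i.succ / n 0) • S 0 := by
      intro i
      rw [smul_sub, smul_smul, smul_smul]
      congr 2
      · field_simp
      · field_simp
    rw [Finset.sum_congr rfl fun i _ => h3 i, Finset.sum_sub_distrib, ← Finset.sum_smul, h2,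
      ← Finset.sum_div, neg_div, neg_smul]
    abel
  rw [h1]
  exact Submodule.sum_mem _ fun i _ => Submodule.smul_mem _ _ (Submodule.subset_span ⟨i, rfl⟩)

end HYI
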