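import Mathlib
import Pool.Agent.HYI.Base
import Pool.Agent.HYF.SplitF

/-! The two parts of an integral element under the involution. -/

namespace HYI

open Polynomial Pool.Agent.Helper11 Pool.Agent.ISI

theorem funGroup_eq {r : ℕ} {P : Fin (r + 1) → ℤ[X]} {f : ℤ[X]} {ε : ℤ} {K : Type} [Field K]
    [CharZero K] {x : K} {v : Kˣ} :
    funGroup P f ε x (v : K) = xGroup P f ε x ⊔ Subgroup.zpowers v := by
  unfold funGroup xGroup
  rw [Set.union_assoc, Set.union_comm, Subgroup.closure_union]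
  congr 1
  rw [Subgroup.zpowers_eq_closure]
  congr 1
  ext u
  simp only [Set.mem_ofPred_eq, Set.mem_singleton_iff]
  exact ⟨fun h => Units.ext h, fun h => by rw [h]⟩

private lemma split_le {r : ℕ} {P : Fin (r + 1) → ℤ[X]} {f : ℤ[X]} {ε : ℤ} {K : Type} [Field K]
    [CharZero K] {x : K} : xGroup P f ε x ≤ HYF.xFull x := by
  unfold xGroup
  rw [Subgroup.closure_le]
  rintro t (⟨i, ht⟩ | ⟨p, _, ht⟩)
  · refine Subgroup.subset_closure ⟨(P i).map (Int.castRingHom ℚ), ?_⟩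
    rw [ht, aeval_map]
  · exact Subgroup.subset_closure ⟨p, ht⟩

theorem int_split {r : ℕ} {P : Fin (r + 1) → ℤ[X]} {e : Fin (r + 1) → ℕ} {c κ ε : ℤ} {K : Type}
    [Field K] [CharZero K] {x : K} {v : Kˣ} (H : Cur P e c κ ε x v) {z : KMQ K 2}
    (hz : z ∈ Submodule.span ℚ {t : KMQ K 2 | ∃ a ∈ funGroup P (fp P e c κ) ε x (v : K),
      ∃ b ∈ funGroup P (fp P e c κ) ε x (v : K), t = sy a b}) (hi : z ∈ integralM K 2) :
    ∃ (M : ℕ) (h : Kˣ), M ≠ 0 ∧ h ∈ xGroup P (fp P e c κ) ε x ∧ (M : ℚ) • z = sy h v ∧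
      sy h v ∈ integralM K 2 := by
  rw [funGroup_eq] at hz
  exact HYF.split_gen H _ (fun h hh => HYF.xFull_quot H.hx (split_le hh)) hz hi

end HYI
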