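import Mathlib
import Pool.Agent.HYI.Base

/-! MODULE HYI-Tor (the relation `{f(x) - κ, w} = 0`).

PLAN. `f(x) - κ = c ∏ (P i)(x)^(e i) = (w² - κ w + ε) / w` by `H.h`. So with `g = w² - κ w + ε` (a unit of
`K`: `f(x) - κ ≠ 0` because `x` is transcendental) the left side of `tor` is
`sy (g / w) w = sy g w - sy w w = sy g w` (`sy_self`, `pz_val`, `cst_val`, `sy_mul_left`,
`sy_prod_left`, `sy_zpow_left`). It remains to see that `sy g w = 0` (`tor_aux`):
κ = 2: g = (w-1)², κ = -2: (w+1)², κ = 0, ε = 1: w²+1, κ = -1: w²+w+1 = (w³-1)/(w-1),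
κ = 1: w²-w+1 = (w³+1)/(w+1), ε = -1: w²-1. Use `sy_steinberg`: `sy (1-t) t = 0` for
`t = w, -w, -w², w³, -w³, w²`, `sy_isC`-type vanishing of symbols with `-1`:
`sy a (-1) = 0` because `2 sy a (-1) = sy a 1 = 0`. -/

namespace HYI

open Polynomial Pool.Agent.Helper11 Pool.Agent.ISI

section

variable {K : Type} [Field K] [CharZero K]

private lemma tor_sq {s : Kˣ} (hs : s ^ 2 = 1) (u : Kˣ) : sy u s = 0 := by
  have h := sy_zpow_right u s 2
  have h1 : s ^ (2 : ℤ) = 1 := by
    rw [← hs]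
    rfl
  rw [h1, sy_one_right] at h
  have h2 : ((2 : ℤ) : ℚ) ≠ 0 := by norm_num
  exact (smul_eq_zero.1 h.symm).resolve_left h2

private lemma tor_sq' {s : Kˣ} (hs : s ^ 2 = 1) (u : Kˣ) : sy s u = 0 := by
  rw [sy_anti, tor_sq hs, neg_zero]

private lemma tor_st {a v s t : Kˣ} {n : ℕ} (hn : n ≠ 0) (hs : s ^ 2 = 1) (ht : t ^ 2 = 1)
    (h : (a : K) = s * (1 - t * (v : K) ^ n)) : sy a v = 0 := by
  have hb : ((s⁻¹ * a : Kˣ) : K) + ((t * v ^ n : Kˣ) : K) = 1 := by
    rw [Units.val_mul, h, ← mul_assoc, Units.inv_mul, one_mul, Units.val_mul,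
      Units.val_pow_eq_pow_val]
    ring
  have h1 := sy_steinberg hb
  have h2 := sy_zpow_right (s⁻¹ * a) v (n : ℤ)
  rw [zpow_natCast] at h2
  rw [sy_mul_right, tor_sq ht, zero_add, h2] at h1
  have h3 : ((n : ℤ) : ℚ) ≠ 0 := by
    rw [Int.cast_natCast]
    exact Nat.cast_ne_zero.2 hn
  have h4 := (smul_eq_zero.1 h1).resolve_left h3
  have hs' : s⁻¹ ^ 2 = 1 := by rw [inv_pow, hs, inv_one]
  rwa [sy_mul_left, tor_sq' hs', zero_add] at h4

private lemma tor_one : (1 : Kˣ) ^ 2 = 1 := one_pow 2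

private lemma tor_neg : (-1 : Kˣ) ^ 2 = 1 := by
  rw [neg_one_sq]

/-- `κ = -1` -/
private lemma tor_c3 {g v : Kˣ} (hg : (g : K) = (v : K) ^ 2 + v + 1) : sy g v = 0 := by
  by_cases hv : (v : K) = 1
  · have h1 : v = 1 := Units.ext hv
    rw [h1, sy_one_right]
  · have hm : (v : K) - 1 ≠ 0 := sub_ne_zero.2 hv
    have h1 : sy (Units.mk0 _ hm) v = 0 := by
      refine tor_st (s := -1) (t := 1) (n := 1) one_ne_zero tor_neg tor_one ?_
      rw [Units.val_mk0, Units.val_neg, Units.val_one]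
      ring
    have h2 : sy (g * Units.mk0 _ hm) v = 0 := by
      refine tor_st (s := -1) (t := 1) (n := 3) (by norm_num) tor_neg tor_one ?_
      rw [Units.val_mul, Units.val_mk0, Units.val_neg, Units.val_one, hg]
      ring
    rwa [sy_mul_left, h1, add_zero] at h2

/-- `κ = 1` -/
private lemma tor_c6 {g v : Kˣ} (hg : (g : K) = (v : K) ^ 2 - v + 1) : sy g v = 0 := by
  by_cases hv : (v : K) = -1
  · have h1 : v = -1 := Units.ext (by rw [hv, Units.val_neg, Units.val_one])
    rw [h1]
    exact tor_sq tor_neg g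
  · have hm : (v : K) + 1 ≠ 0 := fun h0 => hv (eq_neg_of_add_eq_zero_left h0)
    have h1 : sy (Units.mk0 _ hm) v = 0 := by
      refine tor_st (s := 1) (t := -1) (n := 1) one_ne_zero tor_one tor_neg ?_
      rw [Units.val_mk0, Units.val_neg, Units.val_one]
      ring
    have h2 : sy (g * Units.mk0 _ hm) v = 0 := by
      refine tor_st (s := 1) (t := -1) (n := 3) (by norm_num) tor_one tor_neg ?_
      rw [Units.val_mul, Units.val_mk0, Units.val_neg, Units.val_one, hg]
      ring
    rwa [sy_mul_left, h1, add_zero] at h2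

end

theorem tor_aux {K : Type} [Field K] [CharZero K] {κ ε : ℤ}
    (hκ : (ε = 1 ∧ |κ| ≤ 2) ∨ (ε = -1 ∧ κ = 0)) {g v : Kˣ}
    (hg : (g : K) = (v : K) ^ 2 - κ * v + ε) : sy g v = 0 := by
  rcases hκ with ⟨rfl, hk⟩ | ⟨rfl, rfl⟩
  · have h1 : κ ≤ 2 := (abs_le.1 hk).2
    have h2 : -2 ≤ κ := (abs_le.1 hk).1
    interval_cases κ
    · -- -2
      have hm : (v : K) + 1 ≠ 0 := by
        intro h0
        apply g.ne_zero
        rw [hg]
        push_cast
        linear_combination ((v : K) + 1) * h0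
      have h3 : sy (Units.mk0 _ hm) v = 0 := by
        refine tor_st (s := 1) (t := -1) (n := 1) one_ne_zero tor_one tor_neg ?_
        rw [Units.val_mk0, Units.val_neg, Units.val_one]
        ring
      have h4 : g = Units.mk0 _ hm * Units.mk0 _ hm := by
        apply Units.ext
        rw [Units.val_mul, Units.val_mk0, hg]
        push_cast
        ring
      rw [h4, sy_mul_left, h3, add_zero]
    · -- -1
      apply tor_c3
      rw [hg]
      push_cast
      ring
    · -- 0
      refine tor_st (s := 1) (t := -1) (n := 2) (by norm_num) tor_one tor_neg ?_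
      rw [Units.val_neg, Units.val_one, hg]
      push_cast
      ring
    · -- 1
      apply tor_c6
      rw [hg]
      push_cast
      ring
    · -- 2
      have hm : (v : K) - 1 ≠ 0 := by
        intro h0
        apply g.ne_zero
        rw [hg]
        push_cast
        linear_combination ((v : K) - 1) * h0
      have h3 : sy (Units.mk0 _ hm) v = 0 := by
        refine tor_st (s := -1) (t := 1) (n := 1) one_ne_zero tor_neg tor_one ?_
        rw [Units.val_mk0, Units.val_neg, Units.val_one]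
        ring
      have h4 : g = Units.mk0 _ hm * Units.mk0 _ hm := by
        apply Units.ext
        rw [Units.val_mul, Units.val_mk0, hg]
        push_cast
        ring
      rw [h4, sy_mul_left, h3, add_zero]
  · refine tor_st (s := -1) (t := 1) (n := 2) (by norm_num) tor_neg tor_one ?_
    rw [Units.val_neg, Units.val_one, hg]
    push_cast
    ring

theorem tor {r : ℕ} {P : Fin (r + 1) → ℤ[X]} {e : Fin (r + 1) → ℕ} {c κ ε : ℤ} {K : Type}
    [Field K] [CharZero K] {x : K} {v : Kˣ} (H : Cur P e c κ ε x v) (c' : ℚˣ)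
    (hc' : (c' : ℚ) = c) :
    sy (cst K c') v + ∑ i, (e i : ℚ) • sy (pz x (P i)) v = 0 := by
  have hg : ((cst K c' * (∏ i, pz x (P i) ^ e i) * v : Kˣ) : K) =
      (v : K) ^ 2 - κ * v + ε := by
    have h1 := H.h
    have h2 : aeval x (fp P e c κ) = (c : K) * ∏ i, (aeval x (P i)) ^ e i + κ := by
      unfold fp
      rw [map_add, map_mul, aeval_C, aeval_C, map_prod]
      simp
    have h3 : ∀ i, (pz x (P i) : K) = aeval x (P i) := fun i => pz_val H.hx (H.hm i).ne_zero
    rw [h2] at h1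
    rw [Units.val_mul, Units.val_mul, cst_val, hc', Units.coe_prod]
    have h4 : ∏ i, ((pz x (P i) ^ e i : Kˣ) : K) = ∏ i, (aeval x (P i)) ^ e i :=
      Finset.prod_congr rfl fun i _ => by rw [Units.val_pow_eq_pow_val, h3]
    rw [h4, Rat.cast_intCast]
    linear_combination (-1 : K) * h1
  have h := tor_aux H.hκ hg
  rw [sy_mul_left, sy_self, add_zero, sy_mul_left, sy_prod_left] at h
  rw [← h]
  congr 1
  refine Finset.sum_congr rfl fun i _ => ?_
  have h5 := sy_zpow_left v (pz x (P i)) (e i : ℤ)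
  rw [zpow_natCast, Int.cast_natCast] at h5
  exact h5.symm

end HYI
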