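import Mathlib
import Pool.Agent.HYI.Bri
import Pool.Agent.HYI.Tor
import Pool.Agent.HYI.Cyc
import Pool.Agent.HYI.Inf
import Pool.Agent.HYI.Lin
import Pool.Agent.HYI.Split
import Pool.Agent.BPG.Fin

/-! The main theorem. -/

namespace HYI

open Polynomial Pool.Agent.Helper11 Pool.Agent.ISI

variable {r : ℕ} {P : Fin (r + 1) → ℤ[X]} {e : Fin (r + 1) → ℕ} {c κ ε : ℤ} {K : Type}
  [Field K] [CharZero K] {x : K} {v : Kˣ}

theorem rat_aux {c q : ℚ} (hc : c ≠ 0) (hq : q ≠ 0) {a : ℤ} {N : ℕ}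
    (h : (c ^ a) ^ 2 = (q ^ N) ^ 2) : q ^ N = c ^ a ∨ q ^ N = -(c ^ a) := by
  rcases sq_eq_sq_iff_eq_or_eq_neg.1 h with h1 | h1
  · exact Or.inl h1.symm
  · right
    rw [h1, neg_neg]

theorem sy_neg_one_left (v : Kˣ) : sy (-1 : Kˣ) v = 0 := by
  have h := sy_mul_left (-1 : Kˣ) (-1) v
  rw [neg_mul_neg, one_mul] at h
  have h1 : sy (1 : Kˣ) v = 0 := by
    have h2 := sy_mul_left (1 : Kˣ) 1 v
    rw [one_mul] at h2
    exact left_eq_add.1 h2
  rw [h1] at h
  have h3 : (2 : ℚ) • sy (-1 : Kˣ) v = 0 := by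
    rw [two_smul]
    exact h.symm
  exact (smul_eq_zero.1 h3).resolve_left two_ne_zero

theorem core (H : Cur P e c κ ε x v) {z : KMQ K 2}
    (hz : z ∈ Submodule.span ℚ {t : KMQ K 2 | ∃ a ∈ funGroup P (fp P e c κ) ε x (v : K),
      ∃ b ∈ funGroup P (fp P e c κ) ε x (v : K), t = sy a b}) (hi : z ∈ integralM K 2)
    (u : Fin r → Kˣ) (hu : ∀ i, (u i : K) = aeval x (P i.succ) ^ (P 0).natDegree /
      aeval x (P 0) ^ (P i.succ).natDegree) :
    z ∈ Submodule.span ℚ (Set.range fun i => sy (u i) v) := by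
  obtain ⟨M, h, hM, hh, hMz, hint⟩ := int_split H hz hi
  obtain ⟨q, m, hqm⟩ := cusp_only H hh hint
  rw [hqm] at hint hMz
  have hrel := inf_rel H hint
  have hc0 : (c : ℚ) ≠ 0 := Int.cast_ne_zero.2 H.hc
  set N : ℕ := ∑ i, e i * (P i).natDegree with hN
  set a : ℤ := ∑ i, m i * (P i).natDegree with ha
  have hN0 : 0 < N := H.sum_pos
  have hcu := tor H (Units.mk0 (c : ℚ) hc0) (Units.val_mk0 hc0)
  -- the symbol of `q`
  have hqN : (N : ℚ) • sy (cst K q) v = (a : ℚ) • sy (cst K (Units.mk0 (c : ℚ) hc0)) v := by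
    rw [← sy_zpow_left, ← Int.cast_natCast (R := ℚ) N, ← sy_zpow_left, ← cst_zpow, ← cst_zpow]
    rcases rat_aux hc0 q.ne_zero hrel with h1 | h1
    · congr 2
      apply Units.ext
      rw [Units.val_zpow_eq_zpow_val, Units.val_zpow_eq_zpow_val, Units.val_mk0, zpow_natCast]
      exact h1
    · have h2 : q ^ (N : ℤ) = (-1) * (Units.mk0 (c : ℚ) hc0) ^ a := by
        apply Units.ext
        rw [Units.val_mul, Units.val_zpow_eq_zpow_val, Units.val_zpow_eq_zpow_val, Units.val_mk0,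
          zpow_natCast, h1]
        simp
      rw [h2, cst_mul, sy_mul_left]
      have h3 : cst K (-1 : ℚˣ) = (-1 : Kˣ) := by
        apply Units.ext
        rw [cst_val]
        simp
      rw [h3, sy_neg_one_left, zero_add]
  have hsum : sy (cst K q * ∏ i, pz x (P i) ^ m i) v =
      sy (cst K q) v + ∑ i, (m i : ℚ) • sy (pz x (P i)) v := by
    rw [sy_mul_left, sy_prod_left]
    congr 1
    exact Finset.sum_congr rfl fun i _ => sy_zpow_left _ _ _
  have hkey : (N : ℚ) • sy (cst K q * ∏ i, pz x (P i) ^ m i) v =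
      ∑ i, ((N : ℚ) * m i - a * e i) • sy (pz x (P i)) v := by
    rw [hsum, smul_add, hqN, eq_neg_of_add_eq_zero_left hcu, smul_neg, Finset.smul_sum,
      Finset.smul_sum, neg_add_eq_sub, ← Finset.sum_sub_distrib]
    refine Finset.sum_congr rfl fun i _ => ?_
    rw [smul_smul, smul_smul, ← sub_smul]
  have hlin := lin_mem (fun i => sy (pz x (P i)) v) (fun i => ((P i).natDegree : ℚ))
    (by exact_mod_cast (H.deg_pos 0).ne') (fun i => (N : ℚ) * m i - a * e i) (by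
      have h1 : ∀ i, ((N : ℚ) * m i - a * e i) * (P i).natDegree =
          (N : ℚ) * (m i * (P i).natDegree) - a * (e i * (P i).natDegree) := fun i => by ring
      rw [Finset.sum_congr rfl fun i _ => h1 i, Finset.sum_sub_distrib, ← Finset.mul_sum,
        ← Finset.mul_sum, hN, ha]
      push_cast
      ring)
  rw [← hkey] at hlin
  have hset : (fun i : Fin r => ((P 0).natDegree : ℚ) • sy (pz x (P i.succ)) v -
      ((P i.succ).natDegree : ℚ) • sy (pz x (P 0)) v) = fun i => sy (u i) v := by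
    funext i
    have h1 : u i = pz x (P i.succ) ^ ((P 0).natDegree : ℤ) /
        pz x (P 0) ^ ((P i.succ).natDegree : ℤ) := by
      apply Units.ext
      rw [hu i, Units.val_div_eq_div_val, Units.val_zpow_eq_zpow_val, Units.val_zpow_eq_zpow_val,
        pz_val H.hx (H.hm _).ne_zero, pz_val H.hx (H.hm _).ne_zero, zpow_natCast, zpow_natCast]
    rw [h1, sy_div_left, sy_zpow_left, sy_zpow_left]
    push_cast
    rfl
  rw [hset] at hlin
  have hz2 : z = ((M : ℚ)⁻¹ * (N : ℚ)⁻¹) • ((N : ℚ) • sy (cst K q * ∏ i, pz x (P i) ^ m i) v) := by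
    rw [← hMz, smul_smul, smul_smul]
    have h1 : (M : ℚ) ≠ 0 := Nat.cast_ne_zero.2 hM
    have h2 : (N : ℚ) ≠ 0 := Nat.cast_ne_zero.2 hN0.ne'
    have h3 : (M : ℚ)⁻¹ * (N : ℚ)⁻¹ * (N : ℚ) * M = 1 := by
      field_simp
    rw [h3, one_smul]
  rw [hz2]
  exact Submodule.smul_mem _ _ hlin

theorem main (hm : ∀ i, (P i).Monic) (hi : ∀ i, Irreducible (P i))
    (hd : Function.Injective P) (he : ∀ i, e i ≠ 0) (hc : c ≠ 0)
    (hκ : (ε = 1 ∧ |κ| ≤ 2) ∨ (ε = -1 ∧ κ = 0))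
    {x w : K} (hx : Transcendental ℚ x)
    (hK : IntermediateField.adjoin ℚ {x, w} = ⊤)
    (h : w + ε * w⁻¹ = c * ∏ i, (aeval x (P i)) ^ e i + κ) :
    ∃ (u : Fin r → Kˣ) (v : Kˣ), (v : K) = w ∧
      (∀ i, (u i : K) = aeval x (P i.succ) ^ (P 0).natDegree /
        aeval x (P 0) ^ (P i.succ).natDegree) ∧
      intSym (funGroup P (C c * ∏ i, P i ^ e i + C κ) ε x w) =
        Submodule.span ℚ (Set.range fun i => sym (u i) v) ∧
      ∃ (n : ℕ) (R : Fin n → (K2Q K →ₗ[ℚ] ℝ)),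
        (∀ j, ∃ γ : K →+* LoopRing, ∀ f g : Kˣ,
          R j (sym f g) = regInt (γ (f : K) : ℝ → ℂ) (γ (g : K) : ℝ → ℂ)) ∧
        BPG.genus (BPG.disc P e c κ ε) ≤ Module.finrank ℝ (Submodule.span ℝ
            (Set.range fun (i : Fin r) (j : Fin n) => R j (sym (u i) v))) +
          ∑ i, ((P i).natDegree * (if |κ| = 2 then (e i + 1) / 2 else e i) - 1) := by
  obtain ⟨u, v, hv, hu, hint, n, R, hR, hg⟩ := BPG.main hm hi hd he hc hκ hx hK h
  refine ⟨u, v, hv, hu, ?_, n, R, hR, hg⟩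
  subst hv
  have H : Cur P e c κ ε x v := by
    refine ⟨hm, hi, hd, he, hc, hκ, hx, hK, ?_⟩
    rw [aeval_fp]
    have hv0 : (v : K) ≠ 0 := v.ne_zero
    rw [← h]
    field_simp
    ring
  have hf : C c * ∏ i, P i ^ e i + C κ = fp P e c κ := rfl
  rw [hf]
  obtain ⟨F, G, hF, hG, hGF, hFi⟩ := exists_bri K
  apply le_antisymm
  · intro z hz
    obtain ⟨hz1, hz2⟩ := Submodule.mem_inf.1 hz
    have h1 : F z ∈ Submodule.span ℚ {t : KMQ K 2 |
        ∃ a ∈ funGroup P (fp P e c κ) ε x (v : K),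
          ∃ b ∈ funGroup P (fp P e c κ) ε x (v : K), t = sy a b} := by
      have h2 := Submodule.mem_map_of_mem (f := F) hz1
      rw [Submodule.map_span] at h2
      refine Submodule.span_mono ?_ h2
      rintro _ ⟨_, ⟨a, ha, b, hb, rfl⟩, rfl⟩
      exact ⟨a, ha, b, hb, hF a b⟩
    have h3 := core H h1 (hFi z hz2) u hu
    have h4 := Submodule.mem_map_of_mem (f := G) h3
    rw [hGF, Submodule.map_span] at h4
    refine Submodule.span_mono ?_ h4
    rintro _ ⟨_, ⟨i, rfl⟩, rfl⟩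
    exact ⟨i, (hG _ _).symm⟩
  · rw [Submodule.span_le]
    rintro _ ⟨i, rfl⟩
    refine Submodule.mem_inf.2 ⟨Submodule.subset_span ⟨u i, ?_, v, ?_, rfl⟩, hint i⟩
    · have hP : ∀ j, ∃ t : Kˣ, (t : K) = aeval x (P j) ∧
          t ∈ funGroup P (fp P e c κ) ε x (v : K) := by
        intro j
        refine ⟨pz x (P j), pz_val hx (hm j).ne_zero, Subgroup.subset_closure ?_⟩
        exact Or.inl (Or.inr ⟨j, pz_val hx (hm j).ne_zero⟩)
      obtain ⟨t, ht, htm⟩ := hP i.succ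
      obtain ⟨t0, ht0, ht0m⟩ := hP 0
      have h1 : u i = t ^ (P 0).natDegree / t0 ^ (P i.succ).natDegree := by
        apply Units.ext
        rw [hu i, Units.val_div_eq_div_val, Units.val_pow_eq_pow_val, Units.val_pow_eq_pow_val,
          ht, ht0]
      rw [h1]
      exact Subgroup.div_mem _ (Subgroup.pow_mem _ htm _) (Subgroup.pow_mem _ ht0m _)
    · exact Subgroup.subset_closure (Or.inl (Or.inl rfl))

end HYI
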